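import Pool.Agent.Lib.MP_da167d_an.Stmts

set_option autoImplicit false

/-! (M7) averaging on a compact group of order prime to `q`. -/

namespace Pool.Agent.Lib.MP_da167d_an

open Topology MeasureTheory

namespace Av

variable {B : Type} [AddCommGroup B] [TopologicalSpace B] [IsTopologicalAddGroup B]
  [CompactSpace B]

/-- the group of periods -/
def per (η : B → ℤ) : AddSubgroup B where
  carrier := {b | ∀ x, η (b + x) = η x}
  zero_mem' := by simp
  add_mem' := by
    intro a b ha hb x
    rw [add_assoc, ha, hb]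
  neg_mem' := by
    intro a ha x
    have := ha (-a + x)
    rw [← this]
    congr 1
    abel

lemma per_open (η : B → ℤ) (h : IsLocallyConstant η) : IsOpen (per η : Set B) := by
  have hn : IsOpen {p : B × B | η (p.1 + p.2) = η p.2} := by
    have h1 : IsLocallyConstant (fun p : B × B => (η (p.1 + p.2), η p.2)) :=
      (h.comp_continuous (f := fun p : B × B => p.1 + p.2) (by fun_prop)).prodMk
        (h.comp_continuous (f := fun p : B × B => p.2) (by fun_prop))
    exact h1 {c | c.1 = c.2}
  obtain ⟨u, v, hu, hv, h0, h1, huv⟩ := generalized_tube_lemma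
    (isCompact_singleton (x := (0 : B))) (isCompact_univ (X := B)) hn (by
      rintro ⟨a, b⟩ ⟨ha, _⟩
      simp only [Set.mem_singleton_iff] at ha
      simp [ha])
  refine AddSubgroup.isOpen_of_mem_nhds _ (g := 0) ?_
  refine Filter.mem_of_superset (hu.mem_nhds (h0 rfl)) ?_
  intro b hb x
  exact huv (Set.mk_mem_prod hb (h1 (Set.mem_univ x)))

lemma avg (η : B → ℤ) (h : IsLocallyConstant η) [MeasurableSpace B] [BorelSpace B]
    (μ : Measure B) [μ.IsAddHaarMeasure] [IsProbabilityMeasure μ] (q : ℕ) (hq : q.Prime)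
    (hdiv : ∀ b : B, ∃ b' : B, q • b' = b) :
    ∃ m : ℕ, ¬ q ∣ m ∧ ∃ K : ℤ, (m : ℝ) * ∫ b, (η b : ℝ) ∂μ = K := by
  classical
  have hfin : Finite (B ⧸ per η) := AddSubgroup.quotient_finite_of_isOpen _ (per_open η h)
  let _ : Fintype (B ⧸ per η) := Fintype.ofFinite _
  have hη' : ∀ a b : B, QuotientAddGroup.leftRel (per η) a b → η a = η b := by
    intro a b hab
    rw [QuotientAddGroup.leftRel_apply] at hab
    have h2 := hab a
    rw [← h2]
    congr 1
    abel
  let η' : B ⧸ per η → ℤ := fun c => Quotient.liftOn' c η hη'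
  have hη2 : ∀ b : B, η' (QuotientAddGroup.mk b) = η b := fun b => rfl
  refine ⟨Fintype.card (B ⧸ per η), ?_, ∑ c, η' c, ?_⟩
  · intro hd
    have : Fact q.Prime := ⟨hq⟩
    obtain ⟨x, hx⟩ := exists_prime_addOrderOf_dvd_card q hd
    have hsurj : Function.Surjective (fun c : B ⧸ per η => q • c) := by
      intro c
      obtain ⟨b, rfl⟩ := QuotientAddGroup.mk_surjective c
      obtain ⟨b', hb'⟩ := hdiv b
      refine ⟨QuotientAddGroup.mk b', ?_⟩
      show q • (QuotientAddGroup.mk b' : B ⧸ per η) = _
      rw [← hb']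
      rfl
    have hinj := Finite.injective_iff_surjective.2 hsurj
    have h0 : x = 0 := by
      apply hinj
      show q • x = q • (0 : B ⧸ per η)
      rw [smul_zero, ← hx, addOrderOf_nsmul_eq_zero]
    rw [h0, addOrderOf_zero] at hx
    exact hq.one_lt.ne hx
  · have hc : Continuous fun b => (η b : ℝ) := (h.comp (fun k : ℤ => (k : ℝ))).continuous
    have h1 : ∀ c : B ⧸ per η, ∫ b, (η (c.out + b) : ℝ) ∂μ = ∫ b, (η b : ℝ) ∂μ := by
      intro c
      exact integral_add_left_eq_self (fun b => (η b : ℝ)) c.out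
    have h2 : ∀ b : B, ∑ c : B ⧸ per η, (η (c.out + b) : ℝ) = ((∑ c, η' c : ℤ) : ℝ) := by
      intro b
      rw [← Equiv.sum_comp (Equiv.addRight (QuotientAddGroup.mk b : B ⧸ per η)) η']
      rw [Int.cast_sum]
      refine Finset.sum_congr rfl fun c _ => ?_
      rw [← hη2]
      congr 2
      show (QuotientAddGroup.mk (c.out + b) : B ⧸ per η) = c + QuotientAddGroup.mk b
      rw [QuotientAddGroup.mk_add]
      congr 1
      exact Quotient.out_eq' c
    have h3 : ∑ c : B ⧸ per η, ∫ b, (η (c.out + b) : ℝ) ∂μ = ((∑ c, η' c : ℤ) : ℝ) := by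
      rw [← integral_finsetSum]
      · simp_rw [h2]
        simp
      · intro c _
        have h4 : Continuous fun b => (η (c.out + b) : ℝ) := by
          exact hc.comp (by fun_prop)
        exact h4.integrable_of_hasCompactSupport (HasCompactSupport.of_compactSpace _)
    rw [← h3]
    simp_rw [h1]
    simp

end Av

theorem stAv : StAv := by
  intro B _ _ _ _ _ _ q hq hdiv ι _ T α β hα hT ξ hξ hsum
  classical
  have : Fact q.Prime := ⟨hq⟩
  have : NeZero q := ⟨hq.ne_zero⟩
  borelize B
  let μ : Measure B := Measure.addHaarMeasure ⊤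
  have : IsProbabilityMeasure μ := ⟨by
    have := Measure.addHaarMeasure_self (K₀ := (⊤ : TopologicalSpace.PositiveCompacts B))
    simpa using this⟩
  -- integer lifts
  let X : ι → B → ℤ := fun i b => ((ξ i b).val : ℤ)
  have hX : ∀ i, IsLocallyConstant (X i) := fun i => (hξ i).comp (fun k : ZMod q => (k.val : ℤ))
  have hTc : ∀ i, Continuous (T i) := by
    intro i
    have : T i = fun b => α i b + β i := funext (hT i)
    rw [this]
    exact (hα i).1.add continuous_const
  let Y : B → ℤ := fun b => ∑ i, (X i b - X i (T i b)) - 1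
  have hY : IsLocallyConstant Y := by
    rw [IsLocallyConstant.iff_continuous]
    refine Continuous.sub (continuous_finsetSum _ fun i _ => ?_) continuous_const
    exact (hX i).continuous.sub ((hX i).continuous.comp (hTc i))
  have hYd : ∀ b, (q : ℤ) ∣ Y b := by
    intro b
    rw [← ZMod.intCast_zmod_eq_zero_iff_dvd]
    have := hsum b
    simp only [Y, X]
    push_cast
    simp only [ZMod.natCast_val, ZMod.cast_id', id_eq]
    rw [this]
    ring
  let η : B → ℤ := fun b => Y b / q
  have hη : IsLocallyConstant η := hY.comp (fun k : ℤ => k / q)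
  have hηY : ∀ b, Y b = q * η b := fun b => (Int.mul_ediv_cancel' (hYd b)).symm
  obtain ⟨m, hm, K, hK⟩ := Av.avg η hη μ q hq hdiv
  have hXc : ∀ i, Continuous fun b => (X i b : ℝ) := fun i =>
    ((hX i).comp (fun k : ℤ => (k : ℝ))).continuous
  have hint : ∀ f : B → ℝ, Continuous f → Integrable f μ := fun f hf =>
    hf.integrable_of_hasCompactSupport (HasCompactSupport.of_compactSpace _)
  have hinv : ∀ i, ∀ f : B → ℝ, Continuous f → ∫ b, f (T i b) ∂μ = ∫ b, f b ∂μ := by
    intro i f hf
    have h1 : ∫ b, f (T i b) ∂μ = ∫ b, (fun b => f (b + β i)) (α i b) ∂μ := by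
      refine integral_congr_ae (Filter.Eventually.of_forall fun b => ?_)
      show f (T i b) = f (α i b + β i)
      rw [hT]
    have h2 : (Measure.map (α i) μ).IsAddHaarMeasure :=
      (α i).isAddHaarMeasure_map μ (hα i).1 (hα i).2
    have h3 : IsProbabilityMeasure (Measure.map (α i) μ) :=
      Measure.isProbabilityMeasure_map (hα i).1.aemeasurable
    have h4 : Measure.map (α i) μ = μ := Measure.isAddHaarMeasure_eq_of_isProbabilityMeasure _ _
    have h5 : ∫ b, (fun b => f (b + β i)) (α i b) ∂μ =
        ∫ b, (fun b => f (b + β i)) b ∂(Measure.map (α i) μ) :=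
      (integral_map (hα i).1.aemeasurable
        (hf.comp (by fun_prop : Continuous fun b : B => b + β i)).aestronglyMeasurable).symm
    rw [h1, h5, h4]
    exact integral_add_right_eq_self f (β i)
  have hYint : ∫ b, (Y b : ℝ) ∂μ = -1 := by
    have h1 : ∀ b, (Y b : ℝ) = ∑ i, ((X i b : ℝ) - (X i (T i b) : ℝ)) - 1 := by
      intro b
      simp only [Y]
      push_cast
      rfl
    simp_rw [h1]
    rw [integral_sub, integral_finsetSum]
    · have h2 : ∀ i, ∫ b, ((X i b : ℝ) - (X i (T i b) : ℝ)) ∂μ = 0 := by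
        intro i
        have h3 := integral_sub (hint _ (hXc i)) (hint _ ((hXc i).comp (hTc i)))
        have h4 := hinv i (fun b => (X i b : ℝ)) (hXc i)
        simp only [Function.comp_def] at h3
        rw [h3, h4, sub_self]
      simp [h2]
    · intro i _
      exact hint _ ((hXc i).sub ((hXc i).comp (hTc i)))
    · exact hint _ (continuous_finsetSum _ fun i _ => (hXc i).sub ((hXc i).comp (hTc i)))
    · exact integrable_const _
  have h5 : (q : ℝ) * ∫ b, (η b : ℝ) ∂μ = -1 := by
    rw [← hYint, ← integral_const_mul]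
    refine integral_congr_ae (Filter.Eventually.of_forall fun b => ?_)
    show (q : ℝ) * (η b : ℝ) = (Y b : ℝ)
    rw [hηY b]
    push_cast
    ring
  have h6 : -(m : ℤ) = q * K := by
    have : -(m : ℝ) = q * K := by
      rw [← hK]
      calc -(m : ℝ) = m * (-1) := by ring
        _ = m * (q * ∫ b, (η b : ℝ) ∂μ) := by rw [h5]
        _ = _ := by ring
    exact_mod_cast this
  apply hm
  have h7 : (q : ℤ) ∣ (m : ℤ) := by
    rw [← dvd_neg, h6]
    exact dvd_mul_right _ _
  exact_mod_cast h7

end Pool.Agent.Lib.MP_da167d_an
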