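import Pool.Agent.Lib.MP_da167d_an.Stmts

set_option autoImplicit false

/-! Brouwer's characterisation of the Cantor space. -/

namespace Pool.Agent.Lib.MP_da167d_an

open TopologicalSpace

namespace Brouwer

variable {Z : Type} [TopologicalSpace Z]

/-- The clopen set attached to a word, for a rule `E` that splits clopen sets. -/
def Dl (E : Clopens Z → ℕ → Clopens Z) : List Bool → Clopens Z
  | [] => ⊤
  | b :: l => if b = true then Dl E l ⊓ E (Dl E l) l.length else Dl E l \ E (Dl E l) l.length

open Classical in
/-- The word of length `n` of a point. -/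
noncomputable def pre (E : Clopens Z → ℕ → Clopens Z) (z : Z) : ℕ → List Bool
  | 0 => []
  | n + 1 => decide (z ∈ E (Dl E (pre E z n)) n) :: pre E z n

/-- The word of length `n` of a sequence. -/
def wd (x : ℕ → Bool) : ℕ → List Bool
  | 0 => []
  | n + 1 => x n :: wd x n

theorem wd_length (x : ℕ → Bool) (n : ℕ) : (wd x n).length = n := by
  induction n with
  | zero => rfl
  | succ n ih => simp [wd, ih]

theorem pre_length (E : Clopens Z → ℕ → Clopens Z) (z : Z) (n : ℕ) : (pre E z n).length = n := by
  induction n with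
  | zero => rfl
  | succ n ih => simp [pre, ih]

open Classical in
theorem mem_Dl_iff (E : Clopens Z → ℕ → Clopens Z) (z : Z) (l : List Bool) :
    z ∈ Dl E l ↔ pre E z l.length = l := by
  induction l with
  | nil => simp [Dl, pre, ← SetLike.mem_coe]
  | cons b l ih =>
    have e1 : pre E z (b :: l).length =
        (decide (z ∈ E (Dl E (pre E z l.length)) l.length) :: pre E z l.length) := rfl
    rw [e1]
    have e2 : z ∈ Dl E (b :: l) ↔ (z ∈ Dl E l ∧ (b = true ↔ z ∈ E (Dl E l) l.length)) := by
      cases b
      · have : Dl E (false :: l) = Dl E l \ E (Dl E l) l.length := rfl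
        rw [this]
        simp [← SetLike.mem_coe]
      · have : Dl E (true :: l) = Dl E l ⊓ E (Dl E l) l.length := rfl
        rw [this]
        simp [← SetLike.mem_coe]
    rw [e2, ih]
    constructor
    · rintro ⟨h1, h2⟩
      rw [h1]
      congr 1
      cases b
      · simpa using h2
      · simpa using h2
    · intro h
      have h1 := (List.cons.inj h).1
      have h2 := (List.cons.inj h).2
      refine ⟨h2, ?_⟩
      rw [h2] at h1
      rw [← h1]
      simp

end Brouwer

open Brouwer

theorem stBrouwer : StBrouwer := by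
  classical
  intro Z _ _ _ _ _ _ hiso
  have hsep : TotallySeparatedSpace Z :=
    inferInstance
  have hcount : Countable (Clopens Z) := Clopens.countable_iff_secondCountable.2 inferInstance
  obtain ⟨CC, hCC⟩ := exists_surjective_nat (Clopens Z)
  -- splitting
  have hsplit : ∀ (D : Clopens Z) (n : ℕ), ∃ E : Clopens Z, (D : Set Z).Nonempty →
      ((D : Set Z) ∩ E).Nonempty ∧ ((D : Set Z) \ E).Nonempty ∧
      ((D : Set Z) ∩ CC n = ∅ ∨ (D : Set Z) \ CC n = ∅ ∨ E = CC n) := by
    intro D n
    by_cases h1 : ((D : Set Z) ∩ CC n).Nonempty ∧ ((D : Set Z) \ CC n).Nonempty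
    · exact ⟨CC n, fun _ => ⟨h1.1, h1.2, Or.inr (Or.inr rfl)⟩⟩
    by_cases hD : (D : Set Z).Nonempty
    · obtain ⟨z, hz⟩ := hD
      have hne : (D : Set Z) ≠ {z} := by
        intro h
        apply hiso z
        rw [← h]
        exact D.isOpen
      have : ∃ w ∈ (D : Set Z), w ≠ z := by
        by_contra hcon
        push Not at hcon
        exact hne (Set.eq_singleton_iff_unique_mem.2 ⟨hz, hcon⟩)
      obtain ⟨w, hw, hwz⟩ := this
      obtain ⟨U, hU, hwU, hzU⟩ := exists_isClopen_of_totally_separated hwz
      refine ⟨⟨U, hU⟩, fun _ => ⟨⟨w, hw, hwU⟩, ⟨z, hz, hzU⟩, ?_⟩⟩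
      rw [not_and_or, Set.not_nonempty_iff_eq_empty, Set.not_nonempty_iff_eq_empty] at h1
      tauto
    · exact ⟨⊤, fun h => absurd h hD⟩
  choose E hE using hsplit
  have hDne : ∀ l : List Bool, (Dl E l : Set Z).Nonempty := by
    intro l
    induction l with
    | nil => exact Set.univ_nonempty
    | cons b l ih =>
      have h := hE (Dl E l) l.length ih
      cases b
      · exact h.2.1
      · exact h.1
  let _ : TopologicalSpace (List Bool) := ⊥
  have : DiscreteTopology (List Bool) := ⟨rfl⟩
  have hpre : ∀ n, Continuous fun z => pre E z n := by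
    intro n
    rw [continuous_discrete_rng]
    intro l
    by_cases hl : l.length = n
    · have : (fun z => pre E z n) ⁻¹' {l} = (Dl E l : Set Z) := by
        ext z
        rw [SetLike.mem_coe, mem_Dl_iff, hl]
        rfl
      rw [this]
      exact (Dl E l).isOpen
    · have : (fun z => pre E z n) ⁻¹' {l} = ∅ := by
        ext z
        simp only [Set.mem_preimage, Set.mem_singleton_iff, Set.mem_empty_iff_false, iff_false]
        intro h
        apply hl
        rw [← h, pre_length]
      rw [this]
      exact isOpen_empty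
  set Φ : Z → Cantor := fun z n => (pre E z (n + 1)).headD false with hΦ
  have hΦc : Continuous Φ := by
    refine continuous_pi fun n => ?_
    have h1 : Continuous fun l : List Bool => l.headD false := continuous_of_discreteTopology
    exact h1.comp (hpre (n + 1))
  have hwd : ∀ z n, pre E z n = wd (Φ z) n := by
    intro z n
    induction n with
    | zero => rfl
    | succ n ih =>
      have e1 : wd (Φ z) (n + 1) = Φ z n :: wd (Φ z) n := rfl
      rw [e1, ← ih]
      rfl
  have hinj : Function.Injective Φ := by
    intro z w hzw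
    by_contra hne
    obtain ⟨U, hU, hzU, hwU⟩ := exists_isClopen_of_totally_separated hne
    obtain ⟨n, hn⟩ := hCC ⟨U, hU⟩
    have hz1 : pre E z n = wd (Φ z) n := hwd z n
    have hw1 : pre E w n = wd (Φ z) n := by rw [hwd w n, hzw]
    set l := wd (Φ z) n with hl
    have hln : l.length = n := wd_length _ _
    have hzl : z ∈ Dl E l := by rw [mem_Dl_iff, hln]; exact hz1
    have hwl : w ∈ Dl E l := by rw [mem_Dl_iff, hln]; exact hw1
    have h := (hE (Dl E l) n (hDne l)).2.2
    have hCn : (CC n : Set Z) = U := by rw [hn]; rfl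
    rcases h with h | h | h
    · have : z ∈ ((Dl E l : Set Z) ∩ CC n) := ⟨hzl, by rw [hCn]; exact hzU⟩
      rw [h] at this
      exact this
    · have : w ∈ ((Dl E l : Set Z) \ CC n) := ⟨hwl, by rw [hCn]; exact hwU⟩
      rw [h] at this
      exact this
    · have h1 : pre E z (n + 1) = pre E w (n + 1) := by rw [hwd, hwd, hzw]
      have h2 : decide (z ∈ E (Dl E (pre E z n)) n) = decide (w ∈ E (Dl E (pre E w n)) n) :=
        (List.cons.inj h1).1
      rw [hz1, hw1, h] at h2
      have h3 : z ∈ CC n := by rw [← SetLike.mem_coe, hCn]; exact hzU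
      have h4 : w ∉ CC n := by rw [← SetLike.mem_coe, hCn]; exact hwU
      simp [h3, h4] at h2
  have hsurj : Function.Surjective Φ := by
    intro x
    have hne : (⋂ n, (Dl E (wd x n) : Set Z)).Nonempty := by
      apply IsCompact.nonempty_iInter_of_sequence_nonempty_isCompact_isClosed
      · intro n z hz
        have e1 : wd x (n + 1) = x n :: wd x n := rfl
        rw [e1, SetLike.mem_coe, mem_Dl_iff] at hz
        rw [SetLike.mem_coe, mem_Dl_iff]
        exact (List.cons.inj hz).2
      · intro n
        exact hDne _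
      · exact (Dl E (wd x 0)).isClosed.isCompact
      · intro n
        exact (Dl E (wd x n)).isClosed
    obtain ⟨z, hz⟩ := hne
    refine ⟨z, ?_⟩
    funext n
    have h1 : z ∈ Dl E (wd x (n + 1)) := Set.mem_iInter.1 hz (n + 1)
    rw [mem_Dl_iff, wd_length] at h1
    simp only [hΦ]
    rw [h1]
    rfl
  exact ⟨(hΦc.homeoOfEquivCompactToT2 (f := Equiv.ofBijective Φ ⟨hinj, hsurj⟩))⟩

end Pool.Agent.Lib.MP_da167d_an
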