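import Pool.Agent.Lib.MP_da167d_an.Stmts

set_option autoImplicit false

/-! (M11) there are at most continuum many actions; (M12) incomparable sets. -/

namespace Pool.Agent.Lib.MP_da167d_an

open Cardinal Topology

theorem stCard : StCard := by
  intro G _ _
  obtain ⟨D, hDc, hDd⟩ := TopologicalSpace.exists_countable_dense Cantor
  have : Countable D := hDc.to_subtype
  let F : Act G → (G × D × ℕ → Bool) := fun φ q => φ q.1 q.2.1 q.2.2
  have hF : Function.Injective F := by
    intro φ ψ h
    refine MonoidHom.ext fun g => ?_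
    refine Homeomorph.ext fun x => ?_
    have h1 : Set.EqOn (φ g) (ψ g) D := by
      intro d hd
      funext n
      exact congrFun h (g, ⟨d, hd⟩, n)
    exact congrFun (Continuous.ext_on hDd (φ g).continuous (ψ g).continuous h1) x
  have h1 : #(Act G) ≤ #(G × D × ℕ → Bool) := Cardinal.mk_le_of_injective hF
  refine h1.trans ?_
  rw [← Cardinal.power_def, Cardinal.mk_bool]
  calc (2 : Cardinal) ^ #(G × D × ℕ) ≤ 2 ^ ℵ₀ :=
        Cardinal.power_le_power_left two_ne_zero (Cardinal.mk_le_aleph0)
    _ = 𝔠 := Cardinal.two_power_aleph0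

theorem stComb : StComb := by
  intro P hP
  let e : ℕ ↪ P := hP.natEmbedding
  have he : Function.Injective fun n => (e n : ℕ) := fun m n h => e.injective (Subtype.ext h)
  refine ⟨fun A => {x | ∃ n ∈ A, (e (2 * n) : ℕ) = x} ∪ {x | ∃ n, n ∉ A ∧ (e (2 * n + 1) : ℕ) = x},
    ?_, ?_⟩
  · rintro A x (⟨n, -, rfl⟩ | ⟨n, -, rfl⟩)
    · exact (e _).2
    · exact (e _).2
  · intro A B hAB hsub
    apply hAB
    ext n
    constructor
    · intro hn
      rcases hsub (Or.inl ⟨n, hn, rfl⟩) with ⟨k, hk, h⟩ | ⟨k, hk, h⟩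
      · have := he h
        have h2 : k = n := by omega
        exact h2 ▸ hk
      · have := he h
        omega
    · intro hn
      by_contra hnA
      rcases hsub (Or.inr ⟨n, hnA, rfl⟩) with ⟨k, hk, h⟩ | ⟨k, hk, h⟩
      · have := he h
        omega
      · have := he h
        have h2 : k = n := by omega
        exact hk (h2 ▸ hn)

end Pool.Agent.Lib.MP_da167d_an
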