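import Mathlib

set_option autoImplicit false

/-! Definitions for the problem on the width of free mixing Cantor actions. -/

namespace Pool.Agent.Lib.MP_da167d_an

open Cardinal Topology



/-- The Cantor space. -/
abbrev Cantor : Type := ℕ → Bool

/-- Actions of a group on a space by homeomorphisms. -/
abbrev ActOn (G : Type) [Group G] (Z : Type) [TopologicalSpace Z] : Type := G →* (Z ≃ₜ Z)

/-- Actions of a group on the Cantor space by homeomorphisms. -/
abbrev Act (G : Type) [Group G] : Type := G →* (Cantor ≃ₜ Cantor)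

section Basic

variable {G : Type} [Group G]

/-- No element different from the identity fixes a point. -/
def IsFree (a : Act G) : Prop := ∀ g : G, g ≠ 1 → ∀ x : Cantor, a g x ≠ x

/-- Topological mixing. -/
def IsMixing (a : Act G) : Prop :=
  ∀ U V : Set Cantor, IsOpen U → IsOpen V → U.Nonempty → V.Nonempty →
    {g : G | (a g '' U) ∩ V = ∅}.Finite

/-- The set `p_W(f, a)` of `W`-patterns of `f`. -/
def patterns (W : Finset G) {k : ℕ} (f : Cantor → Fin k) (a : Act G) : Set (W → Fin k) :=
  Set.range fun (x : Cantor) (w : W) => f (a w x)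

/-- Weak containment `b ≼ a`. -/
def WeaklyContained (b a : Act G) : Prop :=
  ∀ (W : Finset G) (k : ℕ) (f : Cantor → Fin k), Continuous f →
    ∃ g : Cantor → Fin k, Continuous g ∧ patterns W f b = patterns W g a

/-- The supremum of the cardinalities of antichains contained in a class of actions. -/
noncomputable def width (K : Set (Act G)) : Cardinal.{0} :=
  sSup {κ | ∃ A : Set (Act G), A ⊆ K ∧ IsAntichain WeaklyContained A ∧ #A = κ}

/-- The Cayley graph with respect to `S`. -/
def Cayley (S : Set G) : SimpleGraph G := SimpleGraph.fromRel fun x y => ∃ s ∈ S, x * s = y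

/-- Removing any finite set of vertices leaves exactly one infinite component of the Cayley
graph. -/
def OneEndedWith (S : Set G) : Prop :=
  ∀ F : Finset G, ∃! c : ((Cayley S).induce {x | x ∉ F}).ConnectedComponent, c.supp.Infinite

end Basic

/-- Finitely generated one-ended groups. -/
def OneEnded (G : Type) [Group G] : Prop :=
  ∃ S : Finset G, Subgroup.closure (S : Set G) = ⊤ ∧ OneEndedWith (S : Set G)

/-! ### Auxiliary notions -/

section Aux

variable {G : Type} [Group G]

/-- Free actions on a space. -/
def FreeOn {Z : Type} [TopologicalSpace Z] (a : ActOn G Z) : Prop :=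
  ∀ g : G, g ≠ 1 → ∀ x : Z, a g x ≠ x

/-- Mixing actions on a space. -/
def MixOn {Z : Type} [TopologicalSpace Z] (a : ActOn G Z) : Prop :=
  ∀ U V : Set Z, IsOpen U → IsOpen V → U.Nonempty → V.Nonempty → {g : G | (a g '' U) ∩ V = ∅}.Finite

/-- `1` is a boundary modulo `p`: there are locally constant functions `ξ_s`, `s ∈ S`, with
`∑_s (ξ_s(x) - ξ_s(s⁻¹ x)) = 1` for all `x`. -/
def DD (S : Finset G) (p : ℕ) {Z : Type} [TopologicalSpace Z] (a : ActOn G Z) : Prop :=
  ∃ ξ : Z → S → ZMod p, IsLocallyConstant ξ ∧ ∀ x, ∑ s : S, (ξ x s - ξ (a (s : G)⁻¹ x) s) = 1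

/-- The same for an action on the Cantor space. -/
def DC (S : Finset G) (p : ℕ) (a : Act G) : Prop :=
  ∃ ξ : Cantor → S → ZMod p, IsLocallyConstant ξ ∧
    ∀ x, ∑ s : S, (ξ x s - ξ (a (s : G)⁻¹ x) s) = 1

/-- Functions with finite coboundary are, up to finite support, constant on cosets. -/
def Rigid (S : Finset G) (p : ℕ) : Prop :=
  ∀ f : G → ZMod p, {x : G × S | f x.1 ≠ f (x.1 * x.2)}.Finite →
    ∃ κ : G → ZMod p, (∀ g, ∀ s ∈ S, κ (g * s) = κ g) ∧ {g | f g ≠ κ g}.Finite

/-- Sets of functions invariant under left translation. -/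
def LInv {α : Type} (P : (G → α) → Prop) : Prop := ∀ (γ : G) (x : G → α), P x → P fun g => x (γ⁻¹ * g)

/-- The action by left translation on an invariant set of functions. -/
def shift {α : Type} [TopologicalSpace α] (P : (G → α) → Prop) (hP : LInv P) :
    G →* ({x : G → α // P x} ≃ₜ {x : G → α // P x}) where
  toFun γ :=
    { toFun := fun x => ⟨fun g => x.1 (γ⁻¹ * g), hP γ x.1 x.2⟩
      invFun := fun x => ⟨fun g => x.1 (γ * g), by simpa using hP γ⁻¹ x.1 x.2⟩
      left_inv := fun x => by ext g; simp
      right_inv := fun x => by ext g; simp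
      continuous_toFun := by
        refine Continuous.subtype_mk ?_ _
        exact continuous_pi fun g => (continuous_apply _).comp continuous_subtype_val
      continuous_invFun := by
        refine Continuous.subtype_mk ?_ _
        exact continuous_pi fun g => (continuous_apply _).comp continuous_subtype_val }
  map_one' := by ext x g; simp
  map_mul' γ δ := by ext x g; simp [mul_assoc]

/-- Proper `3`-colourings along `s`. -/
def ColP (s : G) (x : G → Fin 3) : Prop := ∀ g, x g ≠ x (g * s)

lemma colP_inv (s : G) : LInv (ColP s) := fun γ x hx g => by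
  have := hx (γ⁻¹ * g)
  rwa [mul_assoc] at this

/-- Chains with boundary `1` modulo `p`. -/
def ChP (S : Finset G) (p : ℕ) (x : G → S → ZMod p) : Prop :=
  ∀ g, ∑ s : S, (x g s - x (g * s) s) = 1

lemma chP_inv (S : Finset G) (p : ℕ) : LInv (ChP S p) := fun γ x hx g => by
  have := hx (γ⁻¹ * g)
  simpa [mul_assoc] using this

/-- The product of a family of actions. -/
def piAct {I : Type} {Z : I → Type} [∀ i, TopologicalSpace (Z i)] (a : ∀ i, ActOn G (Z i)) :
    ActOn G (∀ i, Z i) where
  toFun g := Homeomorph.piCongrRight fun i => a i g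
  map_one' := by ext x i; simp
  map_mul' g h := by ext x i; simp

/-- The product of two actions. -/
def prodAct {Y Z : Type} [TopologicalSpace Y] [TopologicalSpace Z] (a : ActOn G Y)
    (b : ActOn G Z) : ActOn G (Y × Z) where
  toFun g := (a g).prodCongr (b g)
  map_one' := by ext x <;> simp
  map_mul' g h := by ext x <;> simp

/-- The base space: for every `s ≠ 1` a proper `3`-colouring along `s`. -/
abbrev VV (G : Type) [Group G] : Type := ∀ s : {s : G // s ≠ 1}, {x : G → Fin 3 // ColP s.1 x}

/-- The action on the base space. -/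
def vAct (G : Type) [Group G] : ActOn G (VV G) := piAct fun s => shift (ColP s.1) (colP_inv s.1)

/-- The space of chains for all primes in `T`. -/
abbrev XX (Sf : ℕ → Finset G) (T : Set ℕ) : Type :=
  ∀ p : T, {x : G → Sf p.1 → ZMod p.1 // ChP (Sf p.1) p.1 x}

/-- The action on the space of chains. -/
def xAct (Sf : ℕ → Finset G) (T : Set ℕ) : ActOn G (XX Sf T) :=
  piAct fun p => shift (ChP (Sf p.1) p.1) (chP_inv (Sf p.1) p.1)

/-- The action attached to a set of primes. -/
def yAct (Sf : ℕ → Finset G) (T : Set ℕ) : ActOn G (VV G × XX Sf T) :=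
  prodAct (vAct G) (xAct Sf T)

/-- Admissible pairs. -/
structure Good (S : Finset G) (p : ℕ) : Prop where
  prime : p.Prime
  gt : 3 < p
  inf : (Subgroup.closure (S : Set G) : Set G).Infinite
  tors : ∀ x ∈ Subgroup.closure (S : Set G), orderOf x ≠ p
  rigid : Rigid S p

end Aux

end Pool.Agent.Lib.MP_da167d_an
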