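import Pool.Agent.Lib.MP_da167d_an.Stmts

set_option autoImplicit false

/-! Module M13: the main theorem. -/

namespace Pool.Agent.Lib.MP_da167d_an
namespace Final

open Cardinal Topology

section Spaces

variable {G : Type} [Group G]

lemma closed_col (s : G) : IsClosed {x : G → Fin 3 | ColP s x} := by
  have h1 : {x : G → Fin 3 | ColP s x} = ⋂ g : G, {x | x g ≠ x (g * s)} := by
    ext x
    simp only [Set.mem_iInter, Set.mem_ofPred_eq]
    rfl
  rw [h1]
  refine isClosed_iInter fun g => ?_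
  have h2 : {x : G → Fin 3 | x g ≠ x (g * s)} =
      (fun x : G → Fin 3 => (x g, x (g * s))) ⁻¹' {u | u.1 ≠ u.2} := rfl
  rw [h2]
  refine IsClosed.preimage ?_ (isClosed_discrete _)
  exact (continuous_apply g).prodMk (continuous_apply (g * s))

lemma closed_ch (S : Finset G) (p : ℕ) : IsClosed {x : G → S → ZMod p | ChP S p x} := by
  have h1 : {x : G → S → ZMod p | ChP S p x} =
      ⋂ g : G, {x | ∑ s : S, (x g s - x (g * s) s) = 1} := by
    ext x
    simp only [Set.mem_iInter, Set.mem_ofPred_eq]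
    rfl
  rw [h1]
  refine isClosed_iInter fun g => isClosed_eq ?_ continuous_const
  refine continuous_finsetSum _ fun s _ => ?_
  refine Continuous.sub ?_ ?_
  · exact (continuous_apply s).comp (continuous_apply g)
  · exact (continuous_apply s).comp (continuous_apply (g * s))

instance compact_col (s : G) : CompactSpace {x : G → Fin 3 // ColP s x} :=
  isCompact_iff_compactSpace.mp (closed_col s).isCompact

instance compact_ch (S : Finset G) (p : ℕ) [Fact p.Prime] :
    CompactSpace {x : G → S → ZMod p // ChP S p x} :=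
  isCompact_iff_compactSpace.mp (closed_ch S p).isCompact

instance sc_col [Countable G] (s : G) : SecondCountableTopology {x : G → Fin 3 // ColP s x} :=
  TopologicalSpace.Subtype.secondCountableTopology {x : G → Fin 3 | ColP s x}

instance sc_ch [Countable G] (S : Finset G) (p : ℕ) [Fact p.Prime] :
    SecondCountableTopology {x : G → S → ZMod p // ChP S p x} :=
  TopologicalSpace.Subtype.secondCountableTopology {x : G → S → ZMod p | ChP S p x}

instance td_col (s : G) : TotallyDisconnectedSpace {x : G → Fin 3 // ColP s x} :=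
  inferInstance

instance td_ch (S : Finset G) (p : ℕ) : TotallyDisconnectedSpace {x : G → S → ZMod p // ChP S p x} :=
  inferInstance

end Spaces

/-- Free and mixing base action. -/
lemma free_y {G : Type} [Group G] (Sf : ℕ → Finset G) (T : Set ℕ) : FreeOn (yAct Sf T) := by
  intro g hg z h
  have h1 : (yAct Sf T g z).1 ⟨g, hg⟩ = z.1 ⟨g, hg⟩ := by rw [h]
  have h2 : (z.1 ⟨g, hg⟩).1 (g⁻¹ * g) = (z.1 ⟨g, hg⟩).1 g := congrFun (congrArg Subtype.val h1) g
  have h3 := (z.1 ⟨g, hg⟩).2 1
  rw [inv_mul_cancel] at h2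
  rw [one_mul] at h3
  exact h3 h2

lemma infinite_of_oneEnded {H : Type} [Group H] (h : OneEnded H) : Infinite H := by
  obtain ⟨S, -, h1⟩ := h
  obtain ⟨c, hc, -⟩ := h1 ∅
  have : Infinite {x : H | x ∉ (∅ : Finset H)} := by
    have h2 : Infinite c.supp := hc.to_subtype
    exact Infinite.of_injective (fun x : c.supp => x.1) Subtype.val_injective
  exact Infinite.of_injective (fun x : {x : H | x ∉ (∅ : Finset H)} => x.1) Subtype.val_injective

end Final

open Final Cardinal Topology in
/-- (M13) -/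
theorem stFinal (hR : StRigid) (hX : StMixX) (hC : StMixCol) (hP : StProd) (hN : StNotD)
    (hTr : StTrans) (hM : StMono) (hCd : StCard) (hCb : StComb) : StFinal := by
  classical
  intro G _ _ hinf
  -- the generating sets
  have hgood : ∀ p : ℕ, ∃ S : Finset G, (p.Prime ∧ ∃ (H : Type) (_ : Group H) (φ : H →* G),
      Function.Injective φ ∧ OneEnded H ∧ ∀ x : H, orderOf x ≠ p) → 3 < p → Good S p := by
    intro p
    by_cases h : (p.Prime ∧ ∃ (H : Type) (_ : Group H) (φ : H →* G),
      Function.Injective φ ∧ OneEnded H ∧ ∀ x : H, orderOf x ≠ p)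
    · obtain ⟨hp, H, _, φ, hφ, hone, hord⟩ := h
      have hone' := hone
      obtain ⟨S, hS, hS1⟩ := hone
      refine ⟨S.image φ, fun _ h3 => ?_⟩
      have hcl : Subgroup.closure ((S.image φ : Finset G) : Set G) = φ.range := by
        rw [Finset.coe_image, ← MonoidHom.map_closure, hS, ← MonoidHom.range_eq_map]
      refine ⟨hp, h3, ?_, ?_, ?_⟩
      · rw [hcl]
        have := infinite_of_oneEnded hone'
        exact Set.infinite_range_of_injective hφ
      · rw [hcl]
        rintro x ⟨y, rfl⟩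
        rw [orderOf_injective φ hφ]
        exact hord y
      · exact hR G H φ hφ S hS hS1 (S.image φ) (by simp) p
    · exact ⟨∅, fun h' => absurd h' h⟩
  choose Sf hSf using hgood
  set P : Set ℕ := {p : ℕ | p.Prime ∧ ∃ (H : Type) (_ : Group H) (φ : H →* G),
      Function.Injective φ ∧ OneEnded H ∧ ∀ x : H, orderOf x ≠ p} \ Set.Iic 3 with hPdef
  have hPinf : P.Infinite := hinf.sdiff (Set.finite_Iic 3)
  have hGood : ∀ p ∈ P, Good (Sf p) p := fun p hp => hSf p hp.1 (by
    have := hp.2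
    simpa using this)
  -- G is infinite
  have hGinf : Infinite G := by
    obtain ⟨p, hp⟩ := hPinf.nonempty
    have h1 := (hGood p hp).inf
    exact Set.infinite_univ_iff.mp (h1.mono (Set.subset_univ _))
  obtain ⟨T, hT, hTinc⟩ := hCb P hPinf
  -- properties of the spaces
  have hXn : ∀ p ∈ P, Nonempty {x : G → Sf p → ZMod p // ChP (Sf p) p x} ∧
      MixOn (shift (ChP (Sf p) p) (chP_inv (Sf p) p)) := fun p hp =>
    hX G (Sf p) p (hGood p hp).prime (hGood p hp).inf (hGood p hp).rigid
  have hmix : ∀ A, MixOn (yAct Sf (T A)) := by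
    intro A
    apply hP.2
    · exact hP.1 G _ _ _ fun s => (hC G s.1 s.2).2
    · exact hP.1 G _ _ _ fun p => (hXn p.1 (hT A p.2)).2
  have hne : ∀ A, Nonempty (VV G × XX Sf (T A)) := by
    intro A
    have h1 : ∀ s : {s : G // s ≠ 1}, Nonempty {x : G → Fin 3 // ColP s.1 x} := fun s =>
      (hC G s.1 s.2).1
    have h2 : ∀ p : T A, Nonempty {x : G → Sf p.1 → ZMod p.1 // ChP (Sf p.1) p.1 x} := fun p =>
      (hXn p.1 (hT A p.2)).1
    exact ⟨(fun s => Classical.choice (h1 s), fun p => Classical.choice (h2 p))⟩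
  have hex : ∀ A : Set ℕ, ∃ (Φ : (VV G × XX Sf (T A)) ≃ₜ Cantor) (b : Act G),
      (∀ g z, b g (Φ z) = Φ (yAct Sf (T A) g z)) ∧ IsFree b ∧ IsMixing b := by
    intro A
    have : ∀ p : T A, Fact (p.1).Prime := fun p => ⟨(hGood p.1 (hT A p.2)).prime⟩
    have := hne A
    exact hTr G (VV G × XX Sf (T A)) (yAct Sf (T A)) (free_y Sf (T A)) (hmix A)
  choose Φ b hb hfree hbmix using hex
  -- the invariants
  have hDC : ∀ A, ∀ p ∈ T A, DC (Sf p) p (b A) := by
    intro A p hp
    have : Fact p.Prime := ⟨(hGood p (hT A hp)).prime⟩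
    refine ⟨fun c => (((Φ A).symm c).2 ⟨p, hp⟩).1 1, ?_, ?_⟩
    · rw [IsLocallyConstant.iff_continuous]
      exact (continuous_apply (1 : G)).comp (continuous_subtype_val.comp
        ((continuous_apply (⟨p, hp⟩ : T A)).comp (continuous_snd.comp (Φ A).symm.continuous)))
    · intro c
      have h1 := (((Φ A).symm c).2 ⟨p, hp⟩).2 1
      rw [← h1]
      refine Finset.sum_congr rfl fun s _ => ?_
      have h2 : (Φ A).symm (b A (s : G)⁻¹ c) = yAct Sf (T A) (s : G)⁻¹ ((Φ A).symm c) := by
        have := hb A (s : G)⁻¹ ((Φ A).symm c)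
        rw [Homeomorph.apply_symm_apply] at this
        rw [this, Homeomorph.symm_apply_apply]
      show (((Φ A).symm c).2 ⟨p, hp⟩).1 1 s -
        (((Φ A).symm (b A (s : G)⁻¹ c)).2 ⟨p, hp⟩).1 1 s = _
      rw [h2]
      show _ - (((Φ A).symm c).2 ⟨p, hp⟩).1 (((s : G)⁻¹)⁻¹ * 1) s = _
      rw [inv_inv, mul_one, one_mul]
  have hnDC : ∀ A, ∀ q ∈ P, q ∉ T A → ¬ DC (Sf q) q (b A) := by
    intro A q hq hqT ⟨ξ, hξ, hsum⟩
    apply hN G Sf (T A) (fun p hp => hGood p (hT A hp)) (fun p hp => (hXn p (hT A hp)).1) q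
      (hGood q hq) hqT
    refine ⟨fun z => ξ (Φ A z), hξ.comp_continuous (Φ A).continuous, fun z => ?_⟩
    rw [← hsum (Φ A z)]
    refine Finset.sum_congr rfl fun s _ => ?_
    rw [hb A]
  have hnot : ∀ A B, A ≠ B → ¬ WeaklyContained (b A) (b B) := by
    intro A B hAB hw
    obtain ⟨p, hpA, hpB⟩ := Set.not_subset.mp (hTinc A B hAB)
    exact hnDC B p (hT A hpA) hpB (hM G (Sf p) p (hGood p (hT A hpA)).prime _ _ hw
      (hDC A p hpA))
  have hinj : Function.Injective b := by
    intro A B hAB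
    by_contra hne
    apply hnot A B hne
    rw [hAB]
    intro W k f hf
    exact ⟨f, hf, rfl⟩
  apply le_antisymm
  · refine csSup_le' ?_
    rintro κ ⟨A, -, -, rfl⟩
    exact (mk_set_le A).trans (hCd G)
  · have hbdd : BddAbove {κ | ∃ A : Set (Act G), A ⊆ {a : Act G | IsFree a ∧ IsMixing a} ∧
        IsAntichain WeaklyContained A ∧ #A = κ} := by
      refine ⟨#(Act G), ?_⟩
      rintro κ ⟨A, -, -, rfl⟩
      exact mk_set_le A
    refine le_csSup hbdd ⟨Set.range b, ?_, ?_, ?_⟩
    · rintro _ ⟨A, rfl⟩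
      exact ⟨hfree A, hbmix A⟩
    · rintro _ ⟨A, rfl⟩ _ ⟨B, rfl⟩ hAB
      exact hnot A B (fun h => hAB (by rw [h]))
    · rw [mk_range_eq b hinj, mk_set, mk_nat, two_power_aleph0]

end Pool.Agent.Lib.MP_da167d_an
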