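import Pool.Agent.Lib.MP_da167d_an.Stmts

set_option autoImplicit false

/-! (M4) greedy colouring -/

namespace Pool.Agent.Lib.MP_da167d_an

namespace GreedyX

theorem exists_pick (a b : Fin 3) : ∃ c : Fin 3, c ≠ a ∧ c ≠ b := by
  revert a b
  decide

/-- A colour different from two given ones. -/
noncomputable def pick (a b : Fin 3) : Fin 3 := (exists_pick a b).choose

theorem pick_fst (a b : Fin 3) : pick a b ≠ a := (exists_pick a b).choose_spec.1

theorem pick_snd (a b : Fin 3) : pick a b ≠ b := (exists_pick a b).choose_spec.2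

open scoped Classical in
/-- The greedy colouring. -/
noncomputable def col {Q : Type} (σ : Equiv.Perm Q) (D : Set Q) (c : Q → Fin 3) (f : Q → ℕ)
    (q : Q) : Fin 3 :=
  if q ∈ D then c q else
    pick (if σ q ∈ D then c (σ q) else if f (σ q) < f q then col σ D c f (σ q) else 0)
      (if σ.symm q ∈ D then c (σ.symm q) else
        if f (σ.symm q) < f q then col σ D c f (σ.symm q) else 0)
termination_by f q

end GreedyX

open GreedyX

theorem stGreedy : StGreedy := by
  classical
  intro Q _ σ hσ D c hc
  obtain ⟨f, hf⟩ := exists_injective_nat Q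
  have hD : ∀ q ∈ D, col σ D c f q = c q := by
    intro q hq
    rw [col, if_pos hq]
  refine ⟨col σ D c f, ?_, hD⟩
  intro q
  by_cases h1 : q ∈ D
  · rw [hD q h1]
    by_cases h2 : σ q ∈ D
    · rw [hD _ h2]
      exact hc q h1 h2
    · rw [col, if_neg h2, Equiv.symm_apply_apply, if_pos h1]
      exact (pick_snd _ _).symm
  · by_cases h2 : σ q ∈ D
    · rw [hD _ h2]
      conv_lhs => rw [col]
      rw [if_neg h1, if_pos h2]
      exact pick_fst _ _
    · have h3 : f q ≠ f (σ q) := fun h => hσ q (hf h).symm
      rcases lt_or_gt_of_ne h3 with h4 | h4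
      · conv_rhs => rw [col]
        rw [if_neg h2, Equiv.symm_apply_apply, if_neg h1, if_pos h4]
        exact (pick_snd _ _).symm
      · conv_lhs => rw [col]
        rw [if_neg h1, if_neg h2, if_pos h4]
        exact pick_fst _ _

end Pool.Agent.Lib.MP_da167d_an
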