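import Pool.Agent.Lib.MP_da167d_an.Stmts

set_option autoImplicit false

/-! (M5) colourings are mixing -/

namespace Pool.Agent.Lib.MP_da167d_an

open Topology

namespace MixColX

/-- An open set of an invariant set of functions contains all functions which agree with a given
element on a finite window. -/
theorem window {G α : Type} [TopologicalSpace α] {P : (G → α) → Prop}
    {U : Set {x : G → α // P x}} (hU : IsOpen U) {u : {x : G → α // P x}} (hu : u ∈ U) :
    ∃ F : Finset G, ∀ x : {x : G → α // P x}, (∀ g ∈ F, x.1 g = u.1 g) → x ∈ U := by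
  obtain ⟨O, hO, rfl⟩ := isOpen_induced_iff.1 hU
  obtain ⟨F, w, hw, hF⟩ := isOpen_pi_iff.1 hO u.1 hu
  refine ⟨F, fun x hx => hF ?_⟩
  intro g hg
  have h1 : g ∈ F := hg
  rw [hx g h1]
  exact (hw g h1).2

end MixColX

open MixColX

theorem stMixCol (h : StGreedy) : StMixCol := by
  classical
  intro G _ _ s hs
  have hσ : ∀ q, (Equiv.mulRight s) q ≠ q := by
    intro q hq
    have h1 : q * s = q := hq
    exact hs (by simpa using h1)
  constructor
  · obtain ⟨x, hx, -⟩ := h G (Equiv.mulRight s) hσ ∅ (fun _ => 0) (fun q hq => absurd hq id)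
    exact ⟨⟨x, fun g => hx g⟩⟩
  · intro U V hU hV hUn hVn
    obtain ⟨u, hu⟩ := hUn
    obtain ⟨v, hv⟩ := hVn
    obtain ⟨F₁, hF₁⟩ := window hU hu
    obtain ⟨F₂, hF₂⟩ := window hV hv
    set F : Finset G := F₁ ∪ F₂ with hF
    refine ((((F ×ˢ F).image fun q => q.1 * q.2⁻¹) ∪
      ((F ×ˢ F).image fun q => q.1 * (q.2 * s)⁻¹)) ∪
      ((F ×ˢ F).image fun q => q.1 * (q.2 * s⁻¹)⁻¹)).finite_toSet.subset ?_
    intro γ hγ
    by_contra hno
    rw [Finset.mem_coe, Finset.mem_union, Finset.mem_union, not_or, not_or] at hno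
    obtain ⟨⟨n1, n2⟩, n3⟩ := hno
    have m1 : ∀ a ∈ F, ∀ b ∈ F, γ * b ≠ a := by
      intro a ha b hb hab
      apply n1
      rw [Finset.mem_image]
      refine ⟨(a, b), Finset.mem_product.2 ⟨ha, hb⟩, ?_⟩
      simp only
      rw [← hab]
      group
    have m2 : ∀ a ∈ F, ∀ b ∈ F, γ * (b * s) ≠ a := by
      intro a ha b hb hab
      apply n2
      rw [Finset.mem_image]
      refine ⟨(a, b), Finset.mem_product.2 ⟨ha, hb⟩, ?_⟩
      simp only
      rw [← hab]
      group
    have m3 : ∀ a ∈ F, ∀ b ∈ F, γ * (b * s⁻¹) ≠ a := by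
      intro a ha b hb hab
      apply n3
      rw [Finset.mem_image]
      refine ⟨(a, b), Finset.mem_product.2 ⟨ha, hb⟩, ?_⟩
      simp only
      rw [← hab]
      group
    obtain ⟨x, hx, hxD⟩ := h G (Equiv.mulRight s) hσ {q | q ∈ F ∨ γ * q ∈ F}
      (fun q => if q ∈ F then u.1 q else v.1 (γ * q)) (by
        intro q hq hq'
        have hq1 : q ∈ F ∨ γ * q ∈ F := hq
        have hq2 : q * s ∈ F ∨ γ * (q * s) ∈ F := hq'
        show (if q ∈ F then u.1 q else v.1 (γ * q)) ≠
          (if q * s ∈ F then u.1 (q * s) else v.1 (γ * (q * s)))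
        by_cases e1 : q ∈ F
        · rw [if_pos e1]
          by_cases e2 : q * s ∈ F
          · rw [if_pos e2]
            exact u.2 q
          · exfalso
            rcases hq2 with e3 | e3
            · exact e2 e3
            · exact m2 _ e3 q e1 rfl
        · rw [if_neg e1]
          have e4 : γ * q ∈ F := by
            rcases hq1 with e3 | e3
            · exact absurd e3 e1
            · exact e3
          by_cases e2 : q * s ∈ F
          · exfalso
            refine m3 _ e4 (q * s) e2 ?_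
            group
          · rw [if_neg e2, ← mul_assoc]
            exact v.2 (γ * q))
    set X : {x : G → Fin 3 // ColP s x} := ⟨x, fun g => hx g⟩ with hX
    have hXU : X ∈ U := by
      apply hF₁
      intro g hg
      have hgF : g ∈ F := Finset.mem_union_left _ hg
      show x g = u.1 g
      rw [hxD g (Or.inl hgF), if_pos hgF]
    have hXV : shift (ColP s) (colP_inv s) γ X ∈ V := by
      apply hF₂
      intro g hg
      have hgF : g ∈ F := Finset.mem_union_right _ hg
      show x (γ⁻¹ * g) = v.1 g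
      have e1 : γ * (γ⁻¹ * g) = g := by group
      have e2 : γ⁻¹ * g ∉ F := by
        intro e3
        exact m1 g hgF _ e3 e1
      rw [hxD (γ⁻¹ * g) (Or.inr (by rw [e1]; exact hgF)), if_neg e2, e1]
    have hmem : shift (ColP s) (colP_inv s) γ X ∈ (shift (ColP s) (colP_inv s) γ '' U) ∩ V :=
      ⟨⟨X, hXU, rfl⟩, hXV⟩
    have hγ' : (shift (ColP s) (colP_inv s) γ '' U) ∩ V = ∅ := hγ
    rw [hγ'] at hmem
    exact hmem

end Pool.Agent.Lib.MP_da167d_an
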