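import Pool.Agent.Lib.MP_da167d_an.Stmts

set_option autoImplicit false

/-! Module (M3): the space of chains with boundary `1` is nonempty and mixing. -/

namespace Pool.Agent.Lib.MP_da167d_an
namespace MixX

open Filter Topology

/-- a finite window detects membership in an open set -/
lemma window {G α : Type} [TopologicalSpace α] [DiscreteTopology α] {P : (G → α) → Prop}
    {U : Set {x : G → α // P x}} (hU : IsOpen U) {u : {x : G → α // P x}} (hu : u ∈ U) :
    ∃ F : Finset G, ∀ x : {x : G → α // P x}, (∀ g ∈ F, x.1 g = u.1 g) → x ∈ U := by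
  obtain ⟨U', hU', rfl⟩ := isOpen_induced_iff.mp hU
  obtain ⟨I, w, hw, hsub⟩ := isOpen_pi_iff.mp hU' u.1 hu
  refine ⟨I, fun x hx => hsub fun g hg => ?_⟩
  rw [hx g hg]
  exact (hw g hg).2

section

variable {G : Type} [Group G] (S : Finset G) (p : ℕ)

/-- the boundary relation attached to `g` -/
noncomputable def ee (g : G) : (G × S) →₀ ZMod p :=
  ∑ s : S, (Finsupp.single (g, s) 1 - Finsupp.single (g * s, s) 1)

/-- the span of the relations -/
noncomputable def Phi : (G →₀ ZMod p) →ₗ[ZMod p] ((G × S) →₀ ZMod p) :=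
  Finsupp.linearCombination (ZMod p) (ee S p)

lemma ee_apply [DecidableEq G] (g h : G) (s : S) :
    ee S p g (h, s) = (if h = g then 1 else 0) - (if h * (s : G)⁻¹ = g then 1 else 0) := by
  classical
  unfold ee
  rw [Finsupp.finsetSum_apply, Finset.sum_eq_single s]
  · rw [Finsupp.sub_apply, Finsupp.single_apply, Finsupp.single_apply]
    simp only [Prod.mk.injEq, and_true]
    congr 1
    · simp only [eq_comm]
    · congr 1
      rw [eq_comm, mul_inv_eq_iff_eq_mul, eq_iff_iff]
      exact ⟨Eq.symm, Eq.symm⟩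
  · intro t _ hts
    rw [Finsupp.sub_apply, Finsupp.single_apply, Finsupp.single_apply]
    simp [hts]
  · simp

lemma Phi_apply (a : G →₀ ZMod p) (h : G) (s : S) :
    Phi S p a (h, s) = a h - a (h * (s : G)⁻¹) := by
  classical
  induction a using Finsupp.induction_linear with
  | zero => simp
  | add a b ha hb => rw [map_add, Finsupp.add_apply, ha, hb, Finsupp.add_apply, Finsupp.add_apply]
                     ring
  | single g c =>
    rw [Phi, Finsupp.linearCombination_single, Finsupp.smul_apply, ee_apply, Finsupp.single_apply,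
      Finsupp.single_apply, smul_eq_mul, mul_sub, mul_ite, mul_ite, mul_one, mul_zero]
    simp only [eq_comm]

lemma Phi_injective (hinf : (Subgroup.closure (S : Set G) : Set G).Infinite) :
    Function.Injective (Phi S p) := by
  rw [injective_iff_map_eq_zero]
  intro a ha
  have h1 : ∀ (h : G) (s : G), s ∈ S → a (h * s) = a h := by
    intro h s hs
    have := Phi_apply S p a (h * s) ⟨s, hs⟩
    rw [ha] at this
    simp only [Finsupp.coe_zero, Pi.zero_apply, mul_inv_cancel_right] at this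
    exact (sub_eq_zero.mp this.symm)
  have h2 : ∀ x ∈ Subgroup.closure (S : Set G), ∀ h : G, a (h * x) = a h := by
    intro x hx
    induction hx using Subgroup.closure_induction with
    | mem x hx => intro h; exact h1 h x hx
    | one => intro h; rw [mul_one]
    | mul x y _ _ hx hy => intro h; rw [← mul_assoc, hy, hx]
    | inv x _ hx => intro h; rw [← hx (h * x⁻¹), inv_mul_cancel_right]
  ext h
  rw [Finsupp.zero_apply]
  by_contra hne
  apply hinf
  have : ((fun x => h * x) '' (Subgroup.closure (S : Set G) : Set G)) ⊆ (a.support : Set G) := by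
    rintro _ ⟨x, hx, rfl⟩
    simp only [Finset.mem_coe, Finsupp.mem_support_iff]
    rw [h2 x hx h]
    exact hne
  exact Set.Finite.of_finite_image (a.support.finite_toSet.subset this)
    (mul_right_injective h).injOn

/-- the functional attached to a function -/
noncomputable def fn (x : G → S → ZMod p) : ((G × S) →₀ ZMod p) →ₗ[ZMod p] ZMod p :=
  Finsupp.linearCombination (ZMod p) fun q : G × S => x q.1 q.2

omit [Group G] in
lemma fn_single (x : G → S → ZMod p) (g : G) (s : S) :
    fn S p x (Finsupp.single (g, s) 1) = x g s := by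
  rw [fn, Finsupp.linearCombination_single, one_smul]

lemma functional_ee (z : ((G × S) →₀ ZMod p) →ₗ[ZMod p] ZMod p) (g : G) :
    z (ee S p g) = ∑ s : S, (z (Finsupp.single (g, s) 1) - z (Finsupp.single (g * s, s) 1)) := by
  rw [ee, map_sum]
  exact Finset.sum_congr rfl fun s _ => map_sub _ _ _

lemma Phi_single (g : G) : Phi S p (Finsupp.single g 1) = ee S p g := by
  rw [Phi, Finsupp.linearCombination_single, one_smul]

lemma kills (z : ((G × S) →₀ ZMod p) →ₗ[ZMod p] ZMod p) (h : ∀ g, z (ee S p g) = 0)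
    (a : G →₀ ZMod p) : z (Phi S p a) = 0 := by
  have : z ∘ₗ Phi S p = 0 := by
    refine Finsupp.lhom_ext fun g c => ?_
    rw [LinearMap.comp_apply, Phi, Finsupp.linearCombination_single, map_smul, h, smul_zero,
      LinearMap.zero_apply]
  exact LinearMap.congr_fun this a

/-- the bad elements for the window `F` -/
def Bad (F : Finset G) (γ : G) : Prop :=
  ∃ c₁ c₂ : (G × S) →₀ ZMod p, ∃ f : G →₀ ZMod p,
    (∀ g s, g ∉ F → c₁ (g, s) = 0) ∧ (∀ g s, γ * g ∉ F → c₂ (g, s) = 0) ∧
    c₁ + c₂ = Phi S p f ∧ ∀ f' : G →₀ ZMod p, Phi S p f' ≠ c₁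

lemma ultra_const {ι α : Type} [Finite α] (U : Ultrafilter ι) (φ : ι → α) :
    ∃ a, ∀ᶠ i in (U : Filter ι), φ i = a := by
  obtain ⟨a, ha⟩ := Ultrafilter.eq_pure_of_finite (U.map φ)
  refine ⟨a, ?_⟩
  have : {a} ∈ (U.map φ) := by rw [ha]; exact Set.mem_singleton a
  exact this

lemma bad_finite [Fact p.Prime] (hr : Rigid S p) (F : Finset G) : {γ : G | Bad S p F γ}.Finite := by
  classical
  by_contra hinf
  have hinf' : {γ : G | Bad S p F γ}.Infinite := hinf
  have : Infinite {γ : G | Bad S p F γ} := hinf'.to_subtype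
  choose c₁ c₂ f h1 h2 h3 h4 using fun γ : {γ : G | Bad S p F γ} => γ.2
  set U := Filter.hyperfilter {γ : G | Bad S p F γ} with hU
  have hcof : (U : Filter {γ : G | Bad S p F γ}) ≤ cofinite := Filter.hyperfilter_le_cofinite
  choose f₀ hf₀ using fun g : G => ultra_const U fun γ => f γ g
  obtain ⟨d, hd⟩ := ultra_const U fun γ => (fun q : F × S => c₁ γ (q.1, q.2))
  -- the limit of `c₁`
  obtain ⟨γ₀, hγ₀⟩ := hd.exists
  have hc₁ : ∀ᶠ γ in (U : Filter _), c₁ γ = c₁ γ₀ := by
    filter_upwards [hd] with γ hγ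
    ext ⟨g, s⟩
    by_cases hg : g ∈ F
    · have := congrFun (hγ.trans hγ₀.symm) (⟨g, hg⟩, s)
      exact this
    · rw [h1 γ g s hg, h1 γ₀ g s hg]
  have hc₂ : ∀ (g : G) (s : S), ∀ᶠ γ in (U : Filter _), c₂ γ (g, s) = 0 := by
    intro g s
    have hfin : {γ : {γ : G | Bad S p F γ} | (γ : G) * g ∈ F}.Finite := by
      refine Set.Finite.of_finite_image (f := fun γ : {γ : G | Bad S p F γ} => (γ : G) * g)
        (F.finite_toSet.subset ?_) ?_
      · rintro _ ⟨γ, hγ, rfl⟩
        exact hγ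
      · intro γ _ γ' _ h
        exact Subtype.ext (mul_right_cancel h)
    filter_upwards [hcof hfin.compl_mem_cofinite] with γ hγ
    exact h2 γ g s hγ
  have key : ∀ (g : G) (s : S), c₁ γ₀ (g, s) = f₀ g - f₀ (g * (s : G)⁻¹) := by
    intro g s
    obtain ⟨γ, e1, e2, e3, e4⟩ := (hc₁.and ((hc₂ g s).and
      ((hf₀ g).and (hf₀ (g * (s : G)⁻¹))))).exists
    have h := DFunLike.congr_fun (h3 γ) (g, s)
    rw [Finsupp.add_apply, Phi_apply, e1, e2, e3, e4, add_zero] at h
    exact h
  obtain ⟨κ, hκ, hfin⟩ := hr f₀ (by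
    refine Set.Finite.of_finite_image (f := fun x : G × S => (x.1 * x.2, x.2))
      ((c₁ γ₀).support.finite_toSet.subset ?_) ?_
    · rintro _ ⟨⟨g, s⟩, hx, rfl⟩
      simp only [Finset.mem_coe, Finsupp.mem_support_iff]
      rw [key, mul_inv_cancel_right, sub_ne_zero]
      exact fun h => hx h.symm
    · rintro ⟨g, s⟩ _ ⟨g', s'⟩ _ h
      simp only [Prod.mk.injEq] at h
      obtain ⟨h5, rfl⟩ := h
      exact Prod.ext (mul_right_cancel h5) rfl)
  set f' : G →₀ ZMod p := Finsupp.ofSupportFinite (fun g => f₀ g - κ g) (by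
    refine hfin.subset fun g hg => ?_
    rw [Function.mem_support, sub_ne_zero] at hg
    exact hg) with hf'
  refine h4 γ₀ f' ?_
  ext ⟨g, s⟩
  rw [Phi_apply, key, hf']
  show (f₀ g - κ g) - (f₀ (g * (s : G)⁻¹) - κ (g * (s : G)⁻¹)) = _
  have : κ g = κ (g * (s : G)⁻¹) := by
    have := hκ (g * (s : G)⁻¹) s s.2
    rwa [inv_mul_cancel_right] at this
  rw [this]; ring

lemma extend [Fact p.Prime] (F : Finset G) (γ : G) (hγ : ¬ Bad S p F γ)
    (w : ((G × S) →₀ ZMod p) →ₗ[ZMod p] ZMod p) (hw : ∀ g, w (ee S p g) = 0) :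
    ∃ z : ((G × S) →₀ ZMod p) →ₗ[ZMod p] ZMod p, (∀ g, z (ee S p g) = 0) ∧
      (∀ g s, g ∈ F → z (Finsupp.single (g, s) 1) = 0) ∧
      ∀ g s, γ * g ∈ F → z (Finsupp.single (g, s) 1) = w (Finsupp.single (g, s) 1) := by
  classical
  set VF : Submodule (ZMod p) ((G × S) →₀ ZMod p) :=
    Finsupp.supported (ZMod p) (ZMod p) {q : G × S | q.1 ∈ F} with hVF
  set VG : Submodule (ZMod p) ((G × S) →₀ ZMod p) :=
    Finsupp.supported (ZMod p) (ZMod p) {q : G × S | γ * q.1 ∈ F} with hVG
  set A : Submodule (ZMod p) ((G × S) →₀ ZMod p) := LinearMap.range (Phi S p) ⊔ VF with hA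
  have hcompat : ∀ c ∈ A, c ∈ VG → w c = 0 := by
    intro c hc hc2
    obtain ⟨_, ⟨f, rfl⟩, c', hc', rfl⟩ := Submodule.mem_sup.mp hc
    -- `c' ∈ VF`, `Φ f + c' ∈ VG`
    have hmemF : ∀ c ∈ VF, ∀ (g : G) (s : S), g ∉ F → c (g, s) = 0 := by
      intro c hc g s hg
      by_contra hne
      exact hg ((Finsupp.mem_supported _ _).mp hc (by simpa using hne))
    have hmemG : ∀ c ∈ VG, ∀ (g : G) (s : S), γ * g ∉ F → c (g, s) = 0 := by
      intro c hc g s hg
      by_contra hne
      exact hg ((Finsupp.mem_supported _ _).mp hc (by simpa using hne))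
    have hnot : ¬ ∀ f' : G →₀ ZMod p, Phi S p f' ≠ - c' := by
      intro hall
      refine hγ ⟨-c', Phi S p f + c', f, fun g s hg => ?_, hmemG _ hc2, by abel, hall⟩
      rw [Finsupp.neg_apply, hmemF c' hc' g s hg, neg_zero]
    push Not at hnot
    obtain ⟨f', hf'⟩ := hnot
    have h1 : c' = - Phi S p f' := by rw [hf', neg_neg]
    rw [map_add, kills S p w hw, h1, map_neg, kills S p w hw, neg_zero, add_zero]
  set P : ((G × S) →₀ ZMod p) →ₗ.[ZMod p] (ZMod p) := ⟨A, 0⟩ with hP
  set Q : ((G × S) →₀ ZMod p) →ₗ.[ZMod p] (ZMod p) := ⟨VG, w ∘ₗ VG.subtype⟩ with hQ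
  have hPQ : ∀ (x : P.domain) (y : Q.domain), (x : (G × S) →₀ ZMod p) = y → P x = Q y := by
    rintro ⟨x, hx⟩ ⟨y, hy⟩ hxy
    simp only at hxy
    subst hxy
    show (0 : ZMod p) = w x
    exact (hcompat x hx hy).symm
  obtain ⟨z, hz⟩ := LinearMap.exists_extend (P.sup Q hPQ).toFun
  have hzA : ∀ c ∈ A, z c = 0 := by
    intro c hc
    have hle := (P.left_le_sup Q hPQ)
    have h1 := hle.2 (x := ⟨c, hc⟩) (y := ⟨c, hle.1 hc⟩) rfl
    have h2 := LinearMap.congr_fun hz ⟨c, hle.1 hc⟩
    rw [LinearMap.comp_apply] at h2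
    exact h2.trans h1.symm
  have hzG : ∀ c ∈ VG, z c = w c := by
    intro c hc
    have hle := (P.right_le_sup Q hPQ)
    have h1 := hle.2 (x := ⟨c, hc⟩) (y := ⟨c, hle.1 hc⟩) rfl
    have h2 := LinearMap.congr_fun hz ⟨c, hle.1 hc⟩
    rw [LinearMap.comp_apply] at h2
    exact h2.trans h1.symm
  refine ⟨z, fun g => hzA _ ?_, fun g s hg => hzA _ ?_, fun g s hg => hzG _ ?_⟩
  · refine Submodule.mem_sup_left ⟨Finsupp.single g 1, Phi_single S p g⟩
  · exact Submodule.mem_sup_right (Finsupp.single_mem_supported _ _ hg)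
  · exact Finsupp.single_mem_supported _ _ hg

end

end MixX

open MixX in
theorem stMixX : StMixX := by
  classical
  intro G _ S p hp hinf hr
  have : Fact p.Prime := ⟨hp⟩
  refine ⟨?_, ?_⟩
  · obtain ⟨ψ, hψ⟩ := LinearMap.exists_leftInverse_of_injective (Phi S p)
      (LinearMap.ker_eq_bot.mpr (Phi_injective S p hinf))
    set tot : (G →₀ ZMod p) →ₗ[ZMod p] ZMod p :=
      Finsupp.linearCombination (ZMod p) (fun _ : G => (1 : ZMod p)) with htot
    refine ⟨⟨fun g s => tot (ψ (Finsupp.single (g, s) 1)), fun g => ?_⟩⟩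
    have h1 := functional_ee S p (tot ∘ₗ ψ) g
    rw [LinearMap.comp_apply, ← Phi_single] at h1
    have h2 := LinearMap.congr_fun hψ (Finsupp.single g 1)
    rw [LinearMap.comp_apply, LinearMap.id_apply] at h2
    rw [h2, htot, Finsupp.linearCombination_single, smul_eq_mul, mul_one] at h1
    exact h1.symm
  · intro U V hU hV ⟨u, hu⟩ ⟨v, hv⟩
    obtain ⟨F₁, hF₁⟩ := window hU hu
    obtain ⟨F₂, hF₂⟩ := window hV hv
    refine (bad_finite S p hr (F₁ ∪ F₂)).subset fun γ hγ => ?_
    by_contra hbad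
    set v' : G → S → ZMod p := fun g => v.1 (γ * g) with hv'
    have hchv : ∀ g, fn S p v' (ee S p g) = 1 := by
      intro g
      rw [functional_ee]
      simp only [fn_single]
      have := v.2 (γ * g)
      simpa [hv', mul_assoc] using this
    have hchu : ∀ g, fn S p u.1 (ee S p g) = 1 := by
      intro g
      rw [functional_ee]
      simp only [fn_single]
      exact u.2 g
    obtain ⟨z, hz1, hz2, hz3⟩ := extend S p (F₁ ∪ F₂) γ hbad (fn S p v' - fn S p u.1)
      (fun g => by rw [LinearMap.sub_apply, hchv, hchu, sub_self])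
    set x : G → S → ZMod p := fun g s => u.1 g s + z (Finsupp.single (g, s) 1) with hx
    have hxP : ChP S p x := by
      intro g
      have h1 := u.2 g
      have h2 := (functional_ee S p z g).symm.trans (hz1 g)
      have : ∑ s : S, (x g s - x (g * s) s) = ∑ s : S, (u.1 g s - u.1 (g * s) s) +
          ∑ s : S, (z (Finsupp.single (g, s) 1) - z (Finsupp.single (g * s, s) 1)) := by
        rw [← Finset.sum_add_distrib]
        exact Finset.sum_congr rfl fun s _ => by simp only [hx]; ring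
      rw [this, h2, h1, add_zero]
    have hxU : (⟨x, hxP⟩ : {x : G → S → ZMod p // ChP S p x}) ∈ U := by
      refine hF₁ _ fun g hg => ?_
      funext s
      show u.1 g s + z (Finsupp.single (g, s) 1) = u.1 g s
      rw [hz2 g s (Finset.mem_union_left _ hg), add_zero]
    have hxV : shift (ChP S p) (chP_inv S p) γ ⟨x, hxP⟩ ∈ V := by
      refine hF₂ _ fun g hg => ?_
      funext s
      show u.1 (γ⁻¹ * g) s + z (Finsupp.single (γ⁻¹ * g, s) 1) = v.1 g s
      rw [hz3 (γ⁻¹ * g) s (by rw [mul_inv_cancel_left]; exact Finset.mem_union_right _ hg),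
        LinearMap.sub_apply, fn_single, fn_single]
      simp only [hv', mul_inv_cancel_left]
      ring
    have : shift (ChP S p) (chP_inv S p) γ ⟨x, hxP⟩ ∈
        (shift (ChP S p) (chP_inv S p) γ '' U) ∩ V := ⟨⟨_, hxU, rfl⟩, hxV⟩
    rw [hγ] at this
    exact this

end Pool.Agent.Lib.MP_da167d_an
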