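import Pool.Agent.Lib.MP_da167d_an.Stmts

set_option autoImplicit false

/-! (M10) being a boundary modulo `p` is monotone under weak containment. -/

namespace Pool.Agent.Lib.MP_da167d_an

open Cardinal Topology

theorem stMono : StMono := by
  intro G _ S p hp a b hw ⟨ξ, hξ, hsum⟩
  classical
  have : Fact p.Prime := ⟨hp⟩
  have : NeZero p := ⟨hp.ne_zero⟩
  have e : (S → ZMod p) ≃ Fin (Fintype.card (S → ZMod p)) := Fintype.equivFin _
  set W : Finset G := insert 1 (S.image fun s => s⁻¹) with hW
  have h1W : (1 : G) ∈ W := Finset.mem_insert_self _ _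
  have hsW : ∀ s ∈ S, s⁻¹ ∈ W := fun s hs =>
    Finset.mem_insert_of_mem (Finset.mem_image_of_mem _ hs)
  have hfc : Continuous fun x => e (ξ x) := by
    have h1 : IsLocallyConstant (e ∘ ξ) := hξ.comp e
    exact h1.continuous
  obtain ⟨g, hg, hpat⟩ := hw W _ (fun x => e (ξ x)) hfc
  refine ⟨fun x => e.symm (g x), ?_, fun x => ?_⟩
  · have h1 : IsLocallyConstant g := (IsLocallyConstant.iff_continuous g).2 hg
    exact h1.comp e.symm
  · have h1 : (fun w : W => g (a w x)) ∈ patterns W g a := ⟨x, rfl⟩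
    rw [← hpat] at h1
    obtain ⟨y, hy⟩ := h1
    have h2 : ∀ w ∈ W, e.symm (g (a w x)) = ξ (b w y) := by
      intro w hw
      have := congrFun hy ⟨w, hw⟩
      simp only at this
      rw [← this, Equiv.symm_apply_apply]
    have h3 : e.symm (g x) = ξ y := by
      have := h2 1 h1W
      simpa using this
    rw [← hsum y]
    refine Finset.sum_congr rfl fun s _ => ?_
    have h4 := h2 _ (hsW s.1 s.2)
    show e.symm (g x) s - e.symm (g (a (s : G)⁻¹ x)) s = _
    rw [h3, h4]

end Pool.Agent.Lib.MP_da167d_an
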