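import Pool.Agent.Lib.MP_da167d_an.Stmts

set_option autoImplicit false

/-! Module M8: `1` is not a boundary modulo `q` if `q ∉ T`. -/

namespace Pool.Agent.Lib.MP_da167d_an
namespace NotD

open Topology

/-! ### Group theory -/

section Grp

variable {G : Type} [Group G]

/-- Elements whose order has a prime divisor different from `q`. -/
def CB (q : ℕ) (s : G) : Prop := ∃ ℓ : ℕ, ℓ.Prime ∧ ℓ ≠ q ∧ ℓ ∣ orderOf s

lemma noconj {q : ℕ} {H : Subgroup G} (ht : ∀ x ∈ H, orderOf x ≠ q) {s : G}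
    (hs : s ≠ 1) (hB : ¬ CB q s) (g : G) : g * s * g⁻¹ ∉ H := by
  intro hx
  have ho : orderOf (g * s * g⁻¹) = orderOf s := by
    have := orderOf_injective (MulAut.conj g).toMonoidHom (MulAut.conj g).injective s
    simpa using this
  have hn0 : orderOf s ≠ 0 := by
    intro h0
    apply hB
    by_cases h2 : q = 2
    · exact ⟨3, Nat.prime_three, by omega, by rw [h0]; exact dvd_zero _⟩
    · exact ⟨2, Nat.prime_two, fun h => h2 h.symm, by rw [h0]; exact dvd_zero _⟩
  have hn1 : orderOf s ≠ 1 := by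
    rw [Ne, orderOf_eq_one_iff]; exact hs
  have hmin : (orderOf s).minFac.Prime := Nat.minFac_prime hn1
  have hq' : (orderOf s).minFac = q := by
    by_contra h
    exact hB ⟨_, hmin, h, Nat.minFac_dvd _⟩
  have hdvd : q ∣ orderOf s := hq' ▸ Nat.minFac_dvd _
  have h1 : orderOf ((g * s * g⁻¹) ^ (orderOf (g * s * g⁻¹) / q)) = q := by
    apply orderOf_pow_orderOf_div
    · rw [ho]; exact hn0
    · rw [ho]; exact hdvd
  exact ht _ (H.pow_mem hx _) h1

/-- Solutions of `y (g s) = y g + 1` modulo a divisor of the order of `s`. -/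
lemma exists_torsor (s : G) (ℓ : ℕ) (hl : ℓ ∣ orderOf s) : ∃ y : G → ZMod ℓ, ∀ g, y (g * s) = y g + 1 := by
  classical
  have hex : ∀ g : G, ∃ i : ℤ, s ^ i = ((g : G ⧸ Subgroup.zpowers s).out)⁻¹ * g := by
    intro g
    have : ((g : G ⧸ Subgroup.zpowers s).out)⁻¹ * g ∈ Subgroup.zpowers s := by
      rw [← QuotientGroup.eq]
      exact Quotient.out_eq _
    exact Subgroup.mem_zpowers_iff.mp this
  choose i hi using hex
  refine ⟨fun g => (i g : ZMod ℓ), fun g => ?_⟩
  have hc : ((g * s : G) : G ⧸ Subgroup.zpowers s) = (g : G ⧸ Subgroup.zpowers s) := by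
    rw [eq_comm, QuotientGroup.eq]
    simp
  have h1 : s ^ i (g * s) = s ^ (i g + 1) := by
    rw [hi, hc, zpow_add_one, hi]
    group
  have h2 : i (g * s) ≡ i g + 1 [ZMOD orderOf s] := zpow_eq_zpow_iff_modEq.mp h1
  have h3 : i (g * s) ≡ i g + 1 [ZMOD ℓ] := h2.of_dvd (by exact_mod_cast hl)
  have h4 := (ZMod.intCast_eq_intCast_iff _ _ ℓ).mpr h3
  show ((i (g * s) : ℤ) : ZMod ℓ) = (i g : ZMod ℓ) + 1
  rw [h4]
  push_cast
  ring

/-- Colourings of `ZMod ℓ`. -/
lemma exists_kappa (hg : StGreedy) {ℓ : ℕ} (hl : ℓ.Prime) :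
    ∃ κ : ZMod ℓ → Fin 3, ∀ a, κ a ≠ κ (a + 1) := by
  have : Fact ℓ.Prime := ⟨hl⟩
  obtain ⟨x, hx, -⟩ := hg (ZMod ℓ) (Equiv.addRight 1) (by
    intro a h
    simp at h) ∅ (fun _ => 0) (by simp)
  exact ⟨x, hx⟩

/-- Colourings invariant under a subgroup. -/
lemma exists_inv (hg : StGreedy) [Countable G] {H : Subgroup G} {s : G}
    (hs : ∀ g : G, g * s * g⁻¹ ∉ H) :
    ∃ w : G → Fin 3, (∀ g, w g ≠ w (g * s)) ∧ ∀ h ∈ H, ∀ g, w (h * g) = w g := by
  let Q : Type := Quotient (QuotientGroup.rightRel H)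
  have : Countable Q := Quotient.countable
  have hmap : ∀ t : G, ∀ a b : G, (QuotientGroup.rightRel H) a b →
      (QuotientGroup.rightRel H) (a * t) (b * t) := by
    intro t a b hab
    rw [QuotientGroup.rightRel_apply] at hab ⊢
    simpa [mul_assoc] using hab
  let σ : Equiv.Perm Q :=
    { toFun := Quotient.map (fun g => g * s) (hmap s)
      invFun := Quotient.map (fun g => g * s⁻¹) (hmap s⁻¹)
      left_inv := by
        intro a
        induction a using Quotient.inductionOn with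
        | _ g => simp [Quotient.map_mk]
      right_inv := by
        intro a
        induction a using Quotient.inductionOn with
        | _ g => simp [Quotient.map_mk] }
  have hσ : ∀ g : G, σ (Quotient.mk _ g) = Quotient.mk _ (g * s) := fun g => rfl
  obtain ⟨x, hx, -⟩ := hg Q σ (by
    intro a
    induction a using Quotient.inductionOn with
    | _ g =>
      rw [hσ]
      intro h
      have := Quotient.exact h
      have h2 : (QuotientGroup.rightRel H) (g * s) g := this
      rw [QuotientGroup.rightRel_apply] at h2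
      have h3 := H.inv_mem h2
      apply hs g
      simpa [mul_assoc] using h3) ∅ (fun _ => 0) (by simp)
  refine ⟨fun g => x (Quotient.mk _ g), fun g => ?_, fun h hh g => ?_⟩
  · exact hx (Quotient.mk _ g)
  · show x _ = x _
    congr 1
    apply Quotient.sound
    show (QuotientGroup.rightRel H) (h * g) g
    rw [QuotientGroup.rightRel_apply]
    have := H.inv_mem hh
    simpa [mul_assoc] using this

end Grp

/-! ### The torsor -/

section Tor

variable {G : Type} [Group G]

/-- Index set of the torsor coordinates. -/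
abbrev IB (G : Type) [Group G] (q : ℕ) : Type := {s : G // s ≠ 1 ∧ CB q s}

/-- A prime divisor of the order different from `q`. -/
noncomputable def ell {q : ℕ} (s : IB G q) : ℕ := s.2.2.choose

instance ell_fact {q : ℕ} (s : IB G q) : Fact (ell s).Prime := ⟨s.2.2.choose_spec.1⟩

lemma ell_ne {q : ℕ} (s : IB G q) : ell s ≠ q := s.2.2.choose_spec.2.1

lemma ell_dvd {q : ℕ} (s : IB G q) : ell s ∣ orderOf s.1 := s.2.2.choose_spec.2.2

/-- The ambient group. -/
abbrev Amb (G : Type) [Group G] (q : ℕ) (Sf : ℕ → Finset G) (T : Set ℕ) : Type :=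
  (∀ s : IB G q, G → ZMod (ell s)) × (∀ p : T, G → Sf p.1 → ZMod p.1)

/-- Translation. -/
def tr (q : ℕ) (Sf : ℕ → Finset G) (T : Set ℕ) (γ : G) : Amb G q Sf T ≃+ Amb G q Sf T where
  toFun b := (fun s g => b.1 s (γ⁻¹ * g), fun p g => b.2 p (γ⁻¹ * g))
  invFun b := (fun s g => b.1 s (γ * g), fun p g => b.2 p (γ * g))
  left_inv b := by simp
  right_inv b := by simp
  map_add' a b := rfl

lemma tr_cont (q : ℕ) (Sf : ℕ → Finset G) (T : Set ℕ) (γ : G) : Continuous (tr q Sf T γ) := by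
  refine Continuous.prodMk ?_ ?_
  · exact continuous_pi fun s => continuous_pi fun g =>
      (continuous_apply (γ⁻¹ * g)).comp ((continuous_apply s).comp continuous_fst)
  · exact continuous_pi fun p => continuous_pi fun g =>
      (continuous_apply (γ⁻¹ * g)).comp ((continuous_apply p).comp continuous_snd)

lemma tr_symm (q : ℕ) (Sf : ℕ → Finset G) (T : Set ℕ) (γ : G) (b : Amb G q Sf T) :
    (tr q Sf T γ).symm b = tr q Sf T γ⁻¹ b := by
  apply (tr q Sf T γ).injective
  rw [AddEquiv.apply_symm_apply]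
  unfold tr
  ext <;> simp

/-- The homogeneous equations. -/
def BB (q : ℕ) (Sf : ℕ → Finset G) (T : Set ℕ) : AddSubgroup (Amb G q Sf T) where
  carrier := {b | (∀ s g, b.1 s (g * s.1) = b.1 s g) ∧
    ∀ p g, ∑ s : Sf p.1, (b.2 p g s - b.2 p (g * s) s) = 0}
  zero_mem' := ⟨fun s g => rfl, fun p g => by simp⟩
  add_mem' := by
    intro a b ha hb
    refine ⟨fun s g => ?_, fun p g => ?_⟩
    · simp only [Prod.fst_add, Pi.add_apply, ha.1, hb.1]
    · have h1 := ha.2 p g
      have h2 := hb.2 p g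
      simp only [Prod.snd_add, Pi.add_apply]
      rw [Finset.sum_congr rfl (g := fun s => (a.2 p g s - a.2 p (g * s) s) +
        (b.2 p g s - b.2 p (g * s) s)) (fun s _ => by ring), Finset.sum_add_distrib, h1, h2,
        add_zero]
  neg_mem' := by
    intro a ha
    refine ⟨fun s g => ?_, fun p g => ?_⟩
    · simp only [Prod.fst_neg, Pi.neg_apply, ha.1]
    · have h1 := ha.2 p g
      simp only [Prod.snd_neg, Pi.neg_apply]
      rw [Finset.sum_congr rfl (g := fun s => -(a.2 p g s - a.2 p (g * s) s))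
        (fun s _ => by ring), Finset.sum_neg_distrib, h1, neg_zero]

/-- The inhomogeneous equations. -/
def ZP (q : ℕ) (Sf : ℕ → Finset G) (T : Set ℕ) (z : Amb G q Sf T) : Prop :=
  (∀ s g, z.1 s (g * s.1) = z.1 s g + 1) ∧ ∀ p, ChP (Sf p.1) p.1 (z.2 p)

variable {q : ℕ} {Sf : ℕ → Finset G} {T : Set ℕ}

lemma tr_BB (γ : G) {b : Amb G q Sf T} (hb : b ∈ BB q Sf T) : tr q Sf T γ b ∈ BB q Sf T := by
  refine ⟨fun s g => ?_, fun p g => ?_⟩
  · have := hb.1 s (γ⁻¹ * g)
    show b.1 s (γ⁻¹ * (g * s.1)) = b.1 s (γ⁻¹ * g)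
    rw [← mul_assoc]; exact this
  · have := hb.2 p (γ⁻¹ * g)
    show ∑ s : Sf p.1, (b.2 p (γ⁻¹ * g) s - b.2 p (γ⁻¹ * (g * s)) s) = 0
    simpa [mul_assoc] using this

lemma tr_ZP (γ : G) {z : Amb G q Sf T} (hz : ZP q Sf T z) : ZP q Sf T (tr q Sf T γ z) := by
  refine ⟨fun s g => ?_, fun p g => ?_⟩
  · have := hz.1 s (γ⁻¹ * g)
    show z.1 s (γ⁻¹ * (g * s.1)) = z.1 s (γ⁻¹ * g) + 1
    rw [← mul_assoc]; exact this
  · have := hz.2 p (γ⁻¹ * g)
    show ∑ s : Sf p.1, (z.2 p (γ⁻¹ * g) s - z.2 p (γ⁻¹ * (g * s)) s) = 1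
    simpa [mul_assoc] using this

lemma add_ZP {b z : Amb G q Sf T} (hb : b ∈ BB q Sf T) (hz : ZP q Sf T z) :
    ZP q Sf T (b + z) := by
  refine ⟨fun s g => ?_, fun p g => ?_⟩
  · simp only [Prod.fst_add, Pi.add_apply, hb.1, hz.1]
    ring
  · have h1 := hb.2 p g
    have h2 := hz.2 p g
    simp only [Prod.snd_add, Pi.add_apply]
    rw [Finset.sum_congr rfl (g := fun s => (b.2 p g s - b.2 p (g * s) s) +
      (z.2 p g s - z.2 p (g * s) s)) (fun s _ => by ring), Finset.sum_add_distrib, h1, h2,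
      zero_add]

lemma sub_BB {z w : Amb G q Sf T} (hz : ZP q Sf T z) (hw : ZP q Sf T w) :
    z - w ∈ BB q Sf T := by
  refine ⟨fun s g => ?_, fun p g => ?_⟩
  · simp only [Prod.fst_sub, Pi.sub_apply, hz.1, hw.1]
    ring
  · have h1 := hz.2 p g
    have h2 := hw.2 p g
    simp only [Prod.snd_sub, Pi.sub_apply]
    rw [Finset.sum_congr rfl (g := fun s => (z.2 p g s - z.2 p (g * s) s) -
      (w.2 p g s - w.2 p (g * s) s)) (fun s _ => by ring), Finset.sum_sub_distrib, h1, h2,
      sub_self]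

/-- The translation on the homogeneous space. -/
noncomputable def trB (q : ℕ) (Sf : ℕ → Finset G) (T : Set ℕ) (γ : G) : BB q Sf T ≃+ BB q Sf T where
  toFun b := ⟨tr q Sf T γ b.1, tr_BB γ b.2⟩
  invFun b := ⟨(tr q Sf T γ).symm b.1, by rw [tr_symm]; exact tr_BB γ⁻¹ b.2⟩
  left_inv b := by ext1; exact (tr q Sf T γ).symm_apply_apply b.1
  right_inv b := by ext1; exact (tr q Sf T γ).apply_symm_apply b.1
  map_add' a b := by ext1; exact map_add (tr q Sf T γ) a.1 b.1

lemma trB_cont (γ : G) : Continuous (trB q Sf T γ) ∧ Continuous (trB q Sf T γ).symm := by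
  constructor
  · exact Continuous.subtype_mk ((tr_cont q Sf T γ).comp continuous_subtype_val) _
  · refine Continuous.subtype_mk ?_ _
    have : (fun b : BB q Sf T => (tr q Sf T γ).symm b.1) = fun b => tr q Sf T γ⁻¹ b.1 := by
      ext1 b; exact tr_symm q Sf T γ b.1
    rw [this]
    exact (tr_cont q Sf T γ⁻¹).comp continuous_subtype_val

lemma closed_BB : IsClosed (BB q Sf T : Set (Amb G q Sf T)) := by
  have h1 : (BB q Sf T : Set (Amb G q Sf T)) = (⋂ s : IB G q, ⋂ g : G,
      {b | b.1 s (g * s.1) = b.1 s g}) ∩ ⋂ p : T, ⋂ g : G,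
      {b | ∑ s : Sf p.1, (b.2 p g s - b.2 p (g * s) s) = 0} := by
    ext b
    simp only [SetLike.mem_coe, Set.mem_inter_iff, Set.mem_iInter, Set.mem_ofPred_eq]
    rfl
  rw [h1]
  refine IsClosed.inter (isClosed_iInter fun s => isClosed_iInter fun g => ?_)
    (isClosed_iInter fun p => isClosed_iInter fun g => ?_)
  · refine isClosed_eq ?_ ?_
    · exact (continuous_apply (g * s.1)).comp ((continuous_apply s).comp continuous_fst)
    · exact (continuous_apply g).comp ((continuous_apply s).comp continuous_fst)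
  · refine isClosed_eq ?_ continuous_const
    refine continuous_finsetSum _ fun s _ => ?_
    refine Continuous.sub ?_ ?_
    · exact (continuous_apply s).comp ((continuous_apply g).comp
        ((continuous_apply p).comp continuous_snd))
    · exact (continuous_apply s).comp ((continuous_apply (g * s)).comp
        ((continuous_apply p).comp continuous_snd))

lemma div_BB (hq : q.Prime) (hT : ∀ p ∈ T, p.Prime) (hqT : q ∉ T) (b : BB q Sf T) :
    ∃ b' : BB q Sf T, q • b' = b := by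
  have hne : ∀ ℓ : ℕ, ℓ.Prime → ℓ ≠ q → (q : ZMod ℓ) ≠ 0 := by
    intro ℓ hl hlq h0
    rw [ZMod.natCast_eq_zero_iff] at h0
    exact hlq ((Nat.prime_dvd_prime_iff_eq hl hq).mp h0)
  have : ∀ p : T, Fact (p.1).Prime := fun p => ⟨hT p.1 p.2⟩
  refine ⟨⟨(fun s g => (q : ZMod (ell s))⁻¹ * b.1.1 s g,
    fun p g s => (q : ZMod p.1)⁻¹ * b.1.2 p g s), ?_, ?_⟩, ?_⟩
  · intro s g
    show (q : ZMod (ell s))⁻¹ * b.1.1 s (g * s.1) = (q : ZMod (ell s))⁻¹ * b.1.1 s g
    rw [b.2.1 s g]
  · intro p g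
    show ∑ s : Sf p.1, ((q : ZMod p.1)⁻¹ * b.1.2 p g s - (q : ZMod p.1)⁻¹ * b.1.2 p (g * s) s) = 0
    rw [Finset.sum_congr rfl (g := fun s => (q : ZMod p.1)⁻¹ * (b.1.2 p g s -
      b.1.2 p (g * s) s)) (fun s _ => by ring), ← Finset.mul_sum, b.2.2 p g, mul_zero]
  · apply Subtype.ext
    rw [AddSubgroup.coe_nsmul]
    refine Prod.ext ?_ ?_
    · funext s g
      show q • ((q : ZMod (ell s))⁻¹ * b.1.1 s g) = b.1.1 s g
      rw [nsmul_eq_mul, ← mul_assoc, mul_inv_cancel₀ (hne _ (ell_fact s).out (ell_ne s)), one_mul]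
    · funext p g s
      show q • ((q : ZMod p.1)⁻¹ * b.1.2 p g s) = b.1.2 p g s
      rw [nsmul_eq_mul, ← mul_assoc, mul_inv_cancel₀
        (hne _ (hT p.1 p.2) (fun h => hqT (h ▸ p.2))), one_mul]

end Tor

end NotD

open NotD Topology in
/-- (M8) -/
theorem stNotD (hav : StAv) (hg : StGreedy) : StNotD := by
  classical
  intro G _ _ Sf T hT hX q hq hqT ⟨ξ, hξ, hsum⟩
  set H := Subgroup.closure (Sf q : Set G) with hH
  have : ∀ p : T, Fact (p.1).Prime := fun p => ⟨(hT p.1 p.2).prime⟩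
  -- the colourings
  have hκ : ∀ s : IB G q, ∃ κ : ZMod (ell s) → Fin 3, ∀ a, κ a ≠ κ (a + 1) :=
    fun s => exists_kappa hg (ell_fact s).out
  choose κ hκ using hκ
  have hw : ∀ s : {s : G // s ≠ 1}, ∃ w : G → Fin 3, ¬ CB q s.1 →
      (∀ g, w g ≠ w (g * s.1)) ∧ ∀ h ∈ H, ∀ g, w (h * g) = w g := by
    intro s
    by_cases hB : CB q s.1
    · exact ⟨fun _ => 0, fun h => absurd hB h⟩
    · obtain ⟨w, hw⟩ := exists_inv hg (H := H) (s := s.1) (noconj hq.tors s.2 hB)
      exact ⟨w, fun _ => hw⟩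
  choose w hw using hw
  -- the map to the space of the action
  let Φ1 : ∀ s : {s : G // s ≠ 1}, {z : Amb G q Sf T // ZP q Sf T z} → {x : G → Fin 3 // ColP s.1 x} :=
    fun s z => if h : CB q s.1 then
      ⟨fun g => κ ⟨s.1, s.2, h⟩ (z.1.1 ⟨s.1, s.2, h⟩ g), fun g => by
        have := z.2.1 ⟨s.1, s.2, h⟩ g
        simp only at this
        simp only
        rw [this]
        exact hκ _ _⟩
      else ⟨w s, (hw s h).1⟩
  let Φ : {z : Amb G q Sf T // ZP q Sf T z} → VV G × XX Sf T :=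
    fun z => (fun s => Φ1 s z, fun p => ⟨z.1.2 p, z.2.2 p⟩)
  have hΦ1c : ∀ s, Continuous (Φ1 s) := by
    intro s
    by_cases h : CB q s.1
    · have : Φ1 s = fun z => ⟨fun g => κ ⟨s.1, s.2, h⟩ (z.1.1 ⟨s.1, s.2, h⟩ g), fun g => by
          have := z.2.1 ⟨s.1, s.2, h⟩ g
          simp only at this
          simp only
          rw [this]
          exact hκ _ _⟩ := by
        funext z
        simp only [Φ1, dif_pos h]
      rw [this]
      refine Continuous.subtype_mk ?_ _
      refine continuous_pi fun g => ?_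
      refine (continuous_of_discreteTopology (f := κ ⟨s.1, s.2, h⟩)).comp ?_
      exact (continuous_apply g).comp ((continuous_apply _).comp
        (continuous_fst.comp continuous_subtype_val))
    · have : Φ1 s = fun z => ⟨w s, (hw s h).1⟩ := by
        funext z
        simp only [Φ1, dif_neg h]
      rw [this]
      exact continuous_const
  have hΦc : Continuous Φ := by
    refine Continuous.prodMk (continuous_pi fun s => hΦ1c s) (continuous_pi fun p => ?_)
    refine Continuous.subtype_mk ?_ _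
    exact (continuous_apply p).comp (continuous_snd.comp continuous_subtype_val)
  have hΦe : ∀ γ ∈ H, ∀ z : {z : Amb G q Sf T // ZP q Sf T z},
      Φ ⟨tr q Sf T γ z.1, tr_ZP γ z.2⟩ = yAct Sf T γ (Φ z) := by
    intro γ hγ z
    refine Prod.ext ?_ ?_
    · funext s
      apply Subtype.ext
      funext g
      show (Φ1 s ⟨tr q Sf T γ z.1, tr_ZP γ z.2⟩).1 g = (Φ1 s z).1 (γ⁻¹ * g)
      by_cases h : CB q s.1
      · simp only [Φ1, dif_pos h]
        rfl
      · simp only [Φ1, dif_neg h]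
        exact ((hw s h).2 γ⁻¹ (H.inv_mem hγ) g).symm
    · funext p
      rfl
  -- a base point
  have hz0 : ∃ z : Amb G q Sf T, ZP q Sf T z := by
    have h1 : ∀ s : IB G q, ∃ y : G → ZMod (ell s), ∀ g, y (g * s.1) = y g + 1 :=
      fun s => exists_torsor s.1 _ (ell_dvd s)
    choose y hy using h1
    exact ⟨(y, fun p => (Classical.choice (hX p.1 p.2)).1), hy,
      fun p => (Classical.choice (hX p.1 p.2)).2⟩
  obtain ⟨z0, hz0⟩ := hz0
  -- the compact group
  have : CompactSpace (BB q Sf T) := isCompact_iff_compactSpace.mp closed_BB.isCompact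
  have hsc1 : SecondCountableTopology (∀ s : IB G q, G → ZMod (ell s)) := inferInstance
  have hsc2 : SecondCountableTopology (∀ p : T, G → Sf p.1 → ZMod p.1) := inferInstance
  have : SecondCountableTopology (Amb G q Sf T) := inferInstance
  have : SecondCountableTopology (BB q Sf T) := 
    TopologicalSpace.Subtype.secondCountableTopology (BB q Sf T : Set (Amb G q Sf T))
  let ev : BB q Sf T → {z : Amb G q Sf T // ZP q Sf T z} := fun b => ⟨b.1 + z0, add_ZP b.2 hz0⟩
  have hevc : Continuous ev :=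
    Continuous.subtype_mk (continuous_subtype_val.add continuous_const) _
  let Tm : Sf q → BB q Sf T → BB q Sf T := fun i b =>
    ⟨tr q Sf T (i : G)⁻¹ (b.1 + z0) - z0, sub_BB (tr_ZP _ (add_ZP b.2 hz0)) hz0⟩
  let β : Sf q → BB q Sf T := fun i => ⟨tr q Sf T (i : G)⁻¹ z0 - z0, sub_BB (tr_ZP _ hz0) hz0⟩
  refine hav (BB q Sf T) q hq.prime (div_BB hq.prime (fun p hp => (hT p hp).prime) hqT)
    (Sf q) Tm (fun i => trB q Sf T (i : G)⁻¹) β (fun i => trB_cont _) ?_
    (fun i b => ξ (Φ (ev b)) i) ?_ ?_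
  · intro i b
    apply Subtype.ext
    show tr q Sf T (i : G)⁻¹ (b.1 + z0) - z0 = tr q Sf T (i : G)⁻¹ b.1 + (tr q Sf T (i : G)⁻¹ z0 - z0)
    rw [map_add]
    abel
  · intro i
    have h1 : IsLocallyConstant fun b => ξ (Φ (ev b)) := hξ.comp_continuous (hΦc.comp hevc)
    exact h1.comp fun u => u i
  · intro b
    have h1 := hsum (Φ (ev b))
    rw [← h1]
    refine Finset.sum_congr rfl fun i _ => ?_
    have h2 : Φ (ev (Tm i b)) = yAct Sf T (i : G)⁻¹ (Φ (ev b)) := by
      rw [← hΦe _ (H.inv_mem (Subgroup.subset_closure i.2)) (ev b)]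
      congr 1
      apply Subtype.ext
      show tr q Sf T (i : G)⁻¹ (b.1 + z0) - z0 + z0 = tr q Sf T (i : G)⁻¹ (b.1 + z0)
      abel
    rw [h2]

end Pool.Agent.Lib.MP_da167d_an
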