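import Pool.Agent.Lib.MP_da167d_an.Stmts

set_option autoImplicit false

/-! Products of mixing actions are mixing. -/

namespace Pool.Agent.Lib.MP_da167d_an

theorem stProd : StProd := by
  classical
  refine ⟨?_, ?_⟩
  · intro G _ I Z _ a ha U V hU hV hUn hVn
    obtain ⟨u, hu⟩ := hUn
    obtain ⟨v, hv⟩ := hVn
    obtain ⟨I1, W1, hW1, hI1⟩ := isOpen_pi_iff.1 hU u hu
    obtain ⟨I2, W2, hW2, hI2⟩ := isOpen_pi_iff.1 hV v hv
    set A1 : ∀ i, Set (Z i) := fun i => if i ∈ I1 then W1 i else Set.univ with hA1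
    set A2 : ∀ i, Set (Z i) := fun i => if i ∈ I2 then W2 i else Set.univ with hA2
    have hA1o : ∀ i, IsOpen (A1 i) ∧ u i ∈ A1 i := by
      intro i
      by_cases h : i ∈ I1
      · simp only [hA1, h, if_true]; exact hW1 i h
      · simp only [hA1, h, if_false]; exact ⟨isOpen_univ, Set.mem_univ _⟩
    have hA2o : ∀ i, IsOpen (A2 i) ∧ v i ∈ A2 i := by
      intro i
      by_cases h : i ∈ I2
      · simp only [hA2, h, if_true]; exact hW2 i h
      · simp only [hA2, h, if_false]; exact ⟨isOpen_univ, Set.mem_univ _⟩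
    have hfin : (⋃ i ∈ I1 ∪ I2, {g : G | (a i g '' A1 i) ∩ A2 i = ∅}).Finite := by
      apply Set.Finite.biUnion (Finset.finite_toSet _)
      intro i _
      exact ha i _ _ (hA1o i).1 (hA2o i).1 ⟨_, (hA1o i).2⟩ ⟨_, (hA2o i).2⟩
    refine hfin.subset ?_
    intro g hg
    by_contra hcon
    simp only [Set.mem_iUnion, not_exists] at hcon
    have hy : ∀ i, i ∈ I1 ∪ I2 → ∃ y ∈ A1 i, a i g y ∈ A2 i := by
      intro i hi
      have h := hcon i hi
      rw [Set.mem_ofPred_eq, ← Ne, ← Set.nonempty_iff_ne_empty] at h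
      obtain ⟨_, ⟨y, hy, rfl⟩, h2⟩ := h
      exact ⟨y, hy, h2⟩
    choose y hy1 hy2 using hy
    set x : ∀ i, Z i := fun i => if h : i ∈ I1 ∪ I2 then y i h else u i with hx
    have hxU : x ∈ U := by
      apply hI1
      intro i hi
      have hi' : i ∈ I1 := hi
      have h1 : i ∈ I1 ∪ I2 := Finset.mem_union_left _ hi'
      have h2 := hy1 i h1
      simp only [hA1, hi', if_true] at h2
      simp only [hx, h1, dif_pos]
      exact h2
    have hxV : piAct a g x ∈ V := by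
      apply hI2
      intro i hi
      have hi' : i ∈ I2 := hi
      have h1 : i ∈ I1 ∪ I2 := Finset.mem_union_right _ hi'
      have h2 := hy2 i h1
      simp only [hA2, hi', if_true] at h2
      have e : piAct a g x i = a i g (x i) := rfl
      rw [e]
      simp only [hx, h1, dif_pos]
      exact h2
    have hmem : piAct a g x ∈ (piAct a g '' U) ∩ V := ⟨⟨x, hxU, rfl⟩, hxV⟩
    have hg' : (piAct a g '' U) ∩ V = ∅ := hg
    rw [hg'] at hmem
    exact hmem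
  · intro G _ Y Z _ _ a b ha hb U V hU hV hUn hVn
    obtain ⟨⟨u1, u2⟩, hu⟩ := hUn
    obtain ⟨⟨v1, v2⟩, hv⟩ := hVn
    obtain ⟨A1, B1, hA1, hB1, hu1, hu2, hsub1⟩ := isOpen_prod_iff.1 hU u1 u2 hu
    obtain ⟨A2, B2, hA2, hB2, hv1, hv2, hsub2⟩ := isOpen_prod_iff.1 hV v1 v2 hv
    have h1 := ha A1 A2 hA1 hA2 ⟨_, hu1⟩ ⟨_, hv1⟩
    have h2 := hb B1 B2 hB1 hB2 ⟨_, hu2⟩ ⟨_, hv2⟩
    refine (h1.union h2).subset ?_
    intro g hg
    by_contra hcon
    rw [Set.mem_union, not_or] at hcon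
    obtain ⟨hc1, hc2⟩ := hcon
    rw [Set.mem_ofPred_eq, ← Ne, ← Set.nonempty_iff_ne_empty] at hc1 hc2
    obtain ⟨_, ⟨y, hy, rfl⟩, hy2⟩ := hc1
    obtain ⟨_, ⟨z, hz, rfl⟩, hz2⟩ := hc2
    have hmem : prodAct a b g (y, z) ∈ (prodAct a b g '' U) ∩ V :=
      ⟨⟨(y, z), hsub1 ⟨hy, hz⟩, rfl⟩, hsub2 ⟨hy2, hz2⟩⟩
    have hg' : (prodAct a b g '' U) ∩ V = ∅ := hg
    rw [hg'] at hmem
    exact hmem

end Pool.Agent.Lib.MP_da167d_an
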