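import Pool.Agent.Lib.MP_da167d_an.Stmts

set_option autoImplicit false

/-! Module M2: one-ended subgroups give rigidity on cosets. -/

namespace Pool.Agent.Lib.MP_da167d_an

open Set

namespace RigidAux

variable {H : Type} [Group H] {α : Type}

theorem gen_induct {S : Set H} (hS : Subgroup.closure S = ⊤) (P : H → Prop)
    (h1 : ∀ h, P h → ∀ s ∈ S, P (h * s)) (h2 : ∀ h, P h → ∀ s ∈ S, P (h * s⁻¹)) {x : H}
    (hx : P x) (y : H) : P y := by
  have key : ∀ g : H, g ∈ Subgroup.closure S → ∀ h, P h ↔ P (h * g) := by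
    intro g hg
    induction hg using Subgroup.closure_induction with
    | mem s hs =>
      intro h
      refine ⟨fun hh => h1 h hh s hs, fun hh => ?_⟩
      have := h2 _ hh s hs
      rwa [mul_inv_cancel_right] at this
    | one => intro h; rw [mul_one]
    | mul a b _ _ iha ihb =>
      intro h
      rw [iha h, ihb (h * a), mul_assoc]
    | inv a _ ih =>
      intro h
      have := ih (h * a⁻¹)
      rw [inv_mul_cancel_right] at this
      exact this.symm
  have h3 := key (x⁻¹ * y) (by rw [hS]; trivial) x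
  rw [mul_inv_cancel_left] at h3
  exact h3.1 hx

theorem coset {S : Finset H} (hS : Subgroup.closure (S : Set H) = ⊤)
    (hO : OneEndedWith (S : Set H)) (F : H → α)
    (hF : {x : H × S | F x.1 ≠ F (x.1 * x.2)}.Finite) :
    ∃ c : α, {h | F h ≠ c}.Finite ∧ ((∀ h, ∀ s ∈ S, F h = F (h * s)) → ∀ h, F h = c) := by
  classical
  by_cases hb : ∀ h, ∀ s ∈ S, F h = F (h * s)
  · have h1 : ∀ h, F h = F 1 := fun h =>
      gen_induct hS (fun h => F h = F 1) (fun h hh s hs => (hb h s hs).symm.trans hh)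
        (fun h hh s hs => by
          have := hb (h * s⁻¹) s hs
          rw [inv_mul_cancel_right] at this
          exact this.trans hh) rfl h
    refine ⟨F 1, ?_, fun _ => h1⟩
    have : {h | F h ≠ F 1} = ∅ := by
      ext h
      simp [h1 h]
    rw [this]
    exact finite_empty
  · -- endpoints of bad edges
    obtain ⟨K, hK⟩ : ∃ K : Finset H, ∀ h, h ∈ K ↔ ∃ x : H × S, F x.1 ≠ F (x.1 * x.2) ∧
        (h = x.1 ∨ h = x.1 * x.2) := by
      have h1 : {h | ∃ x : H × S, F x.1 ≠ F (x.1 * x.2) ∧ (h = x.1 ∨ h = x.1 * x.2)}.Finite := by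
        refine ((hF.image fun x => x.1).union (hF.image fun x => x.1 * (x.2 : H))).subset ?_
        rintro h ⟨x, hx, rfl | rfl⟩
        · exact Or.inl ⟨x, hx, rfl⟩
        · exact Or.inr ⟨x, hx, rfl⟩
      exact ⟨h1.toFinset, fun h => by simp⟩
    have hgood : ∀ h, h ∉ K → ∀ s ∈ S, F h = F (h * s) := by
      intro h hh s hs
      by_contra hc
      exact hh ((hK h).2 ⟨(h, ⟨s, hs⟩), hc, Or.inl rfl⟩)
    obtain ⟨k0, hk0⟩ : ∃ k, k ∈ K := by
      push Not at hb
      obtain ⟨h, s, hs, hc⟩ := hb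
      exact ⟨h, (hK h).2 ⟨(h, ⟨s, hs⟩), hc, Or.inl rfl⟩⟩
    let Γ : SimpleGraph {x : H // x ∈ {x : H | x ∉ K}} :=
      (Cayley (S : Set H)).induce {x | x ∉ K}
    have hadj : ∀ (x y : {x : H // x ∈ {x : H | x ∉ K}}), (∃ s ∈ S, x.1 * s = y.1) →
        Γ.Reachable x y := by
      rintro x y ⟨s, hs, h1⟩
      by_cases hxy : x = y
      · rw [hxy]
      · refine SimpleGraph.Adj.reachable ?_
        show (Cayley (S : Set H)).Adj x.1 y.1
        refine (SimpleGraph.fromRel_adj _ _ _).2 ⟨fun h => hxy (Subtype.ext h), Or.inl ⟨s, hs, h1⟩⟩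
    have hconst : ∀ x y, Γ.Reachable x y → F x.1 = F y.1 := by
      intro x y hxy
      rw [SimpleGraph.reachable_iff_reflTransGen] at hxy
      induction hxy with
      | refl => rfl
      | @tail b c _ hbc ih =>
        refine ih.trans ?_
        have h1 : (Cayley (S : Set H)).Adj b.1 c.1 := hbc
        obtain ⟨_, ⟨s, hs, h2⟩ | ⟨s, hs, h2⟩⟩ := (SimpleGraph.fromRel_adj _ _ _).1 h1
        · rw [← h2]
          exact hgood b.1 b.2 s hs
        · rw [← h2]
          exact (hgood c.1 c.2 s hs).symm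
    obtain ⟨C, hC, hCu⟩ := hO K
    obtain ⟨x0, hx0⟩ := C.exists_rep
    refine ⟨F x0.1, ?_, fun h => absurd h hb⟩
    -- neighbours of `K`
    have hNf : {h : H | ∃ k ∈ K, ∃ s ∈ S, h * s = k ∨ k * s = h}.Finite := by
      have h1 : {h : H | ∃ k ∈ K, ∃ s ∈ S, h * s = k ∨ k * s = h} ⊆
          ((fun z : H × H => z.1 * z.2⁻¹) '' (K ×ˢ S : Finset (H × H))) ∪
          ((fun z : H × H => z.1 * z.2) '' (K ×ˢ S : Finset (H × H))) := by
        rintro h ⟨k, hk, s, hs, h2 | h2⟩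
        · refine Or.inl ⟨(k, s), by simp [hk, hs], ?_⟩
          simp only
          rw [← h2, mul_inv_cancel_right]
        · exact Or.inr ⟨(k, s), by simp [hk, hs], h2⟩
      exact (((Finset.finite_toSet _).image _).union ((Finset.finite_toSet _).image _)).subset h1
    set N : Set H := {h : H | ∃ k ∈ K, ∃ s ∈ S, h * s = k ∨ k * s = h} with hN
    -- every vertex outside `K` is connected to a neighbour of `K`
    have hreach : ∀ x : {x : H // x ∈ {x : H | x ∉ K}}, ∃ y : {x : H // x ∈ {x : H | x ∉ K}},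
        y.1 ∈ N ∧ Γ.Reachable x y := by
      intro x
      by_contra hx
      have h1 := gen_induct hS (fun h => ∃ hh : h ∉ K, ¬ ∃ y : {x : H // x ∈ {x : H | x ∉ K}},
        y.1 ∈ N ∧ Γ.Reachable ⟨h, hh⟩ y) ?_ ?_ (x := x.1) ⟨x.2, hx⟩ k0
      · obtain ⟨h2, _⟩ := h1
        exact h2 hk0
      · rintro h ⟨hh, h2⟩ s hs
        have h3 : h * s ∉ K := by
          intro h4
          exact h2 ⟨⟨h, hh⟩, ⟨h * s, h4, s, hs, Or.inl rfl⟩, SimpleGraph.Reachable.refl _⟩
        refine ⟨h3, fun ⟨y, hy, h4⟩ => h2 ⟨y, hy, ?_⟩⟩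
        exact (hadj ⟨h, hh⟩ ⟨h * s, h3⟩ ⟨s, hs, rfl⟩).trans h4
      · rintro h ⟨hh, h2⟩ s hs
        have h3 : h * s⁻¹ ∉ K := by
          intro h4
          exact h2 ⟨⟨h, hh⟩, ⟨h * s⁻¹, h4, s, hs, Or.inr (by rw [inv_mul_cancel_right])⟩,
            SimpleGraph.Reachable.refl _⟩
        refine ⟨h3, fun ⟨y, hy, h4⟩ => h2 ⟨y, hy, ?_⟩⟩
        exact (hadj ⟨h * s⁻¹, h3⟩ ⟨h, hh⟩ ⟨s, hs, by rw [inv_mul_cancel_right]⟩).symm.trans h4
    -- conclusion
    have hfin : {h | F h ≠ F x0.1} ⊆ (K : Set H) ∪ ⋃ n ∈ N,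
        {h : H | ∃ (hn : n ∉ K) (hh : h ∉ K), Γ.Reachable ⟨h, hh⟩ ⟨n, hn⟩ ∧ F n ≠ F x0.1} := by
      intro h hh
      by_cases hK' : h ∈ K
      · exact Or.inl hK'
      · right
        obtain ⟨y, hy, h1⟩ := hreach ⟨h, hK'⟩
        refine mem_biUnion hy ⟨y.2, hK', h1, ?_⟩
        rw [← hconst _ _ h1]
        exact hh
    refine Finite.subset ((Finset.finite_toSet K).union (hNf.biUnion fun n _ => ?_)) hfin
    by_cases hn : n ∉ K ∧ F n ≠ F x0.1
    · have h1 : Γ.connectedComponentMk ⟨n, hn.1⟩ ≠ C := by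
        intro h2
        rw [← hx0] at h2
        have h3 : Γ.Reachable ⟨n, hn.1⟩ x0 := SimpleGraph.ConnectedComponent.exact h2
        exact hn.2 (hconst _ _ h3)
      have h2 : ¬ (Γ.connectedComponentMk ⟨n, hn.1⟩).supp.Infinite := fun h3 => h1 (hCu _ h3)
      rw [not_infinite] at h2
      refine (h2.image Subtype.val).subset ?_
      rintro h ⟨hn', hh, h3, _⟩
      exact ⟨⟨h, hh⟩, SimpleGraph.ConnectedComponent.sound h3, rfl⟩
    · have : {h : H | ∃ (hn : n ∉ K) (hh : h ∉ K), Γ.Reachable ⟨h, hh⟩ ⟨n, hn⟩ ∧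
          F n ≠ F x0.1} = ∅ := by
        ext h
        simp only [mem_ofPred_eq, mem_empty_iff_false, iff_false]
        rintro ⟨h1, _, _, h2⟩
        exact hn ⟨h1, h2⟩
      rw [this]
      exact finite_empty

end RigidAux

open RigidAux in
theorem stRigid : StRigid := by
  classical
  intro G H _ _ φ hφ S hS hO S' hS' p f hf
  have hmem : ∀ s ∈ S, φ s ∈ S' := fun s hs => by
    have : φ s ∈ (S' : Set G) := by rw [hS']; exact ⟨s, hs, rfl⟩
    exact this
  have hbad : ∀ r : G, {x : H × S | f (r * φ x.1) ≠ f (r * φ (x.1 * x.2))}.Finite := by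
    intro r
    have hinj : Function.Injective fun x : H × S =>
        ((r * φ x.1, ⟨φ x.2, hmem _ x.2.2⟩) : G × S') := by
      rintro ⟨a, b⟩ ⟨c, d⟩ h
      simp only [Prod.mk.injEq, mul_right_inj, Subtype.mk.injEq] at h
      exact Prod.ext (hφ h.1) (Subtype.ext (hφ h.2))
    refine (hf.preimage hinj.injOn).subset ?_
    rintro ⟨a, b⟩ h
    simp only [mem_ofPred_eq, map_mul, ← mul_assoc] at h
    exact h
  have hc : ∀ r : G, ∃ c : ZMod p, {h : H | f (r * φ h) ≠ c}.Finite ∧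
      ((∀ h : H, ∀ s ∈ S, f (r * φ h) = f (r * φ (h * s))) → ∀ h : H, f (r * φ h) = c) :=
    fun r => coset hS hO (fun h => f (r * φ h)) (hbad r)
  choose c hc1 hc2 using hc
  let r : G → G := fun g => Quotient.out (QuotientGroup.mk g : G ⧸ φ.range)
  have hr : ∀ g, ∃ h : H, g = r g * φ h := by
    intro g
    have h1 : (QuotientGroup.mk (r g) : G ⧸ φ.range) = QuotientGroup.mk g :=
      Quotient.out_eq _
    rw [QuotientGroup.eq] at h1
    obtain ⟨h, hh⟩ := h1
    exact ⟨h, by rw [hh, mul_inv_cancel_left]⟩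
  have hr2 : ∀ g (h : H), r (g * φ h) = r g := by
    intro g h
    have h1 : (QuotientGroup.mk (g * φ h) : G ⧸ φ.range) = QuotientGroup.mk g := by
      rw [eq_comm, QuotientGroup.eq, inv_mul_cancel_left]
      exact ⟨h, rfl⟩
    show Quotient.out _ = Quotient.out _
    rw [h1]
  have hr3 : ∀ g, r (r g) = r g := by
    intro g
    obtain ⟨h, hh⟩ := hr g
    have h1 := hr2 (r g) h
    rw [← hh] at h1
    exact h1.symm
  refine ⟨fun g => c (r g), ?_, ?_⟩
  · intro g s hs
    have h1 : s ∈ (S' : Set G) := hs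
    rw [hS'] at h1
    obtain ⟨t, _, rfl⟩ := h1
    simp only [hr2]
  · have hsub : {g | f g ≠ c (r g)} ⊆ ⋃ x ∈ {x : G × S' | f x.1 ≠ f (x.1 * x.2)},
        (fun h : H => r x.1 * φ h) '' {h : H | f (r x.1 * φ h) ≠ c (r x.1)} := by
      intro g hg
      obtain ⟨h, hh⟩ := hr g
      have h1 : ¬ ∀ h : H, ∀ s ∈ S, f (r g * φ h) = f (r g * φ (h * s)) := by
        intro h2
        have h3 := hc2 (r g) h2 h
        rw [← hh] at h3
        exact hg h3
      push Not at h1
      obtain ⟨k, s, hs, h2⟩ := h1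
      have h4 : r (r g * φ k) = r g := by rw [hr2, hr3]
      refine mem_biUnion (x := ((r g * φ k, ⟨φ s, hmem s hs⟩) : G × S')) ?_ ?_
      · simpa [mul_assoc] using h2
      · simp only [h4]
        refine ⟨h, ?_, hh.symm⟩
        show f (r g * φ h) ≠ c (r g)
        rw [← hh]
        exact hg
    exact (hf.biUnion fun x _ => (hc1 (r x.1)).image _).subset hsub

end Pool.Agent.Lib.MP_da167d_an
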