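import Pool.Agent.Lib.MP_da167d_an.Defs

set_option autoImplicit false

/-! Statements (as propositions) of the modules. -/

namespace Pool.Agent.Lib.MP_da167d_an

open Cardinal Topology

/-- (M1) Brouwer's characterisation of the Cantor space -/
def StBrouwer : Prop := ∀ (Z : Type) [TopologicalSpace Z] [CompactSpace Z] [T2Space Z]
  [TotallyDisconnectedSpace Z] [SecondCountableTopology Z] [Nonempty Z],
  (∀ z : Z, ¬ IsOpen ({z} : Set Z)) → Nonempty (Z ≃ₜ Cantor)

/-- (M2) one-ended subgroups give rigidity on cosets -/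
def StRigid : Prop := ∀ (G H : Type) [Group G] [Group H] (φ : H →* G), Function.Injective φ →
  ∀ S : Finset H, Subgroup.closure (S : Set H) = ⊤ → OneEndedWith (S : Set H) →
  ∀ S' : Finset G, (S' : Set G) = φ '' (S : Set H) → ∀ p : ℕ, Rigid S' p

/-- (M3) the space of chains is nonempty and mixing -/
def StMixX : Prop := ∀ (G : Type) [Group G] (S : Finset G) (p : ℕ), p.Prime →
  (Subgroup.closure (S : Set G) : Set G).Infinite → Rigid S p →
  Nonempty {x : G → S → ZMod p // ChP S p x} ∧ MixOn (shift (ChP S p) (chP_inv S p))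

/-- (M4) greedy colouring -/
def StGreedy : Prop := ∀ (Q : Type) [Countable Q] (σ : Equiv.Perm Q), (∀ q, σ q ≠ q) →
  ∀ (D : Set Q) (c : Q → Fin 3), (∀ q ∈ D, σ q ∈ D → c q ≠ c (σ q)) →
  ∃ x : Q → Fin 3, (∀ q, x q ≠ x (σ q)) ∧ ∀ q ∈ D, x q = c q

/-- (M5) colourings are mixing -/
def StMixCol : Prop := ∀ (G : Type) [Group G] [Countable G] (s : G), s ≠ 1 →
  Nonempty {x : G → Fin 3 // ColP s x} ∧ MixOn (shift (ColP s) (colP_inv s))

/-- (M6) products of mixing actions -/
def StProd : Prop :=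
  (∀ (G : Type) [Group G] (I : Type) (Z : I → Type) [∀ i, TopologicalSpace (Z i)]
    (a : ∀ i, ActOn G (Z i)), (∀ i, MixOn (a i)) → MixOn (piAct a)) ∧
  ∀ (G : Type) [Group G] (Y Z : Type) [TopologicalSpace Y] [TopologicalSpace Z] (a : ActOn G Y)
    (b : ActOn G Z), MixOn a → MixOn b → MixOn (prodAct a b)

/-- (M7) averaging on a compact group of order prime to `q` -/
def StAv : Prop := ∀ (B : Type) [AddCommGroup B] [TopologicalSpace B] [IsTopologicalAddGroup B]
  [CompactSpace B] [T2Space B] [SecondCountableTopology B] (q : ℕ), q.Prime →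
  (∀ b : B, ∃ b' : B, q • b' = b) →
  ∀ (ι : Type) [Fintype ι] (T : ι → B → B) (α : ι → B ≃+ B) (β : ι → B),
  (∀ i, Continuous (α i) ∧ Continuous (α i).symm) → (∀ i b, T i b = α i b + β i) →
  ∀ ξ : ι → B → ZMod q, (∀ i, IsLocallyConstant (ξ i)) →
  ¬ ∀ b, ∑ i, (ξ i b - ξ i (T i b)) = 1

/-- (M8) `1` is not a boundary modulo `q` in the action attached to `T`, if `q ∉ T` -/
def StNotD : Prop := ∀ (G : Type) [Group G] [Countable G] (Sf : ℕ → Finset G) (T : Set ℕ),
  (∀ p ∈ T, Good (Sf p) p) → (∀ p ∈ T, Nonempty {x : G → Sf p → ZMod p // ChP (Sf p) p x}) →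
  ∀ q : ℕ, Good (Sf q) q → q ∉ T → ¬ DD (Sf q) q (yAct Sf T)

/-- (M9) free mixing actions on compact totally disconnected spaces live on the Cantor space -/
def StTrans : Prop := ∀ (G : Type) [Group G] [Infinite G] (Z : Type) [TopologicalSpace Z]
  [CompactSpace Z] [T2Space Z] [TotallyDisconnectedSpace Z] [SecondCountableTopology Z] [Nonempty Z]
  (a : ActOn G Z), FreeOn a → MixOn a →
  ∃ (Φ : Z ≃ₜ Cantor) (b : Act G), (∀ g z, b g (Φ z) = Φ (a g z)) ∧ IsFree b ∧ IsMixing b

/-- (M10) monotonicity -/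
def StMono : Prop := ∀ (G : Type) [Group G] (S : Finset G) (p : ℕ), p.Prime → ∀ a b : Act G,
  WeaklyContained b a → DC S p b → DC S p a

/-- (M11) there are at most continuum many actions -/
def StCard : Prop := ∀ (G : Type) [Group G] [Countable G], #(Act G) ≤ 𝔠

/-- (M12) a family of continuum many pairwise incomparable sets -/
def StComb : Prop := ∀ P : Set ℕ, P.Infinite → ∃ T : Set ℕ → Set ℕ, (∀ A, T A ⊆ P) ∧
  ∀ A B, A ≠ B → ¬ T A ⊆ T B

/-- (M13) the main theorem -/
def StFinal : Prop := ∀ (G : Type) [Group G] [Countable G],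
  {p : ℕ | p.Prime ∧ ∃ (H : Type) (_ : Group H) (φ : H →* G), Function.Injective φ ∧ OneEnded H ∧
    ∀ x : H, orderOf x ≠ p}.Infinite →
  width {a : Act G | IsFree a ∧ IsMixing a} = 𝔠

end Pool.Agent.Lib.MP_da167d_an
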