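import Pool.Agent.Lib.MP_da167d_an.Stmts

set_option autoImplicit false

/-! (M9) transport of free mixing actions to the Cantor space. -/

namespace Pool.Agent.Lib.MP_da167d_an

open Cardinal Topology

namespace Trans

variable {G : Type} [Group G] {Z : Type} [TopologicalSpace Z]

theorem no_isolated [Infinite G] (a : ActOn G Z) (hf : FreeOn a) (hm : MixOn a) (z : Z) :
    ¬ IsOpen ({z} : Set Z) := by
  intro hz
  have h1 := hm {z} {z} hz hz (Set.singleton_nonempty z) (Set.singleton_nonempty z)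
  have h2 : {g : G | g ≠ 1} ⊆ {g : G | (a g '' {z}) ∩ {z} = ∅} := by
    intro g hg
    simp only [Set.mem_ofPred_eq, Set.image_singleton] at hg ⊢
    rw [Set.inter_singleton_eq_empty, Set.mem_singleton_iff]
    exact fun h => hf g hg z h.symm
  have h3 : ({g : G | g ≠ 1} ∪ {1}).Finite := (h1.subset h2).union (Set.finite_singleton _)
  refine Set.infinite_univ (α := G) (h3.subset fun g _ => ?_)
  by_cases h : g = 1
  · right; exact h
  · left; exact h

/-- the conjugate action -/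
def conj (Φ : Z ≃ₜ Cantor) (a : ActOn G Z) : Act G where
  toFun g := Φ.symm.trans ((a g).trans Φ)
  map_one' := by ext x; simp
  map_mul' g h := by ext x; simp

theorem conj_apply (Φ : Z ≃ₜ Cantor) (a : ActOn G Z) (g : G) (x : Cantor) :
    conj Φ a g x = Φ (a g (Φ.symm x)) := rfl

end Trans

open Pool.Agent.Lib.MP_da167d_an.Trans in
theorem stTrans (h : StBrouwer) : StTrans := by
  intro G _ _ Z _ _ _ _ _ _ a hf hm
  obtain ⟨Φ⟩ := h Z (no_isolated a hf hm)
  refine ⟨Φ, conj Φ a, fun g z => by rw [conj_apply, Φ.symm_apply_apply], ?_, ?_⟩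
  · intro g hg x hx
    rw [conj_apply] at hx
    refine hf g hg (Φ.symm x) ?_
    rw [← Φ.symm_apply_apply (a g (Φ.symm x)), hx]
  · intro U V hU hV hUn hVn
    obtain ⟨u, hu⟩ := hUn
    obtain ⟨v, hv⟩ := hVn
    refine (hm (Φ ⁻¹' U) (Φ ⁻¹' V) (hU.preimage Φ.continuous) (hV.preimage Φ.continuous)
      ⟨Φ.symm u, by simpa using hu⟩ ⟨Φ.symm v, by simpa using hv⟩).subset ?_
    intro g hg
    simp only [Set.mem_ofPred_eq] at hg ⊢
    rw [Set.eq_empty_iff_forall_notMem] at hg ⊢
    rintro y ⟨⟨z, hz, rfl⟩, hy⟩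
    refine hg (Φ (a g z)) ⟨⟨Φ z, hz, ?_⟩, hy⟩
    rw [conj_apply, Φ.symm_apply_apply]

end Pool.Agent.Lib.MP_da167d_an
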